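import Pool.Agent.Helper29.T4.Conv
import Pool.Agent.Helper98.T5.Void

/-!
# T5a, block FAR: from the alternative of the table to void or rare patterns
-/

namespace Pool.Agent.Helper29.T5

open Finset Pool.Agent.Helper27.T4 Pool.Agent.Helper5.ET Pool.Agent.Helper25.T5
  Pool.Agent.Helper98.T5 Pool.Agent.Helper36.T4
open Pool.Agent.Helper98.T4 (Mo okM te me)
open Pool.Agent.Helper29.T4 (fk_cases sum_fk ix ix_lt fk_ix ix_fk mo okM_conv te_conv me_conv
  static_al)
open Pool.Agent.Helper29.T4

variable {κ : Type*}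

theorem cnt_of_al5 {a b : Fin 3 → ℕ} {f : Fin 3} (h : al pr a f = al pr b f) : a f = b f := by
  unfold al at h
  have hl : 0 < Real.log (pr f) := Real.log_pos (by exact_mod_cast (pr_prime f).one_lt)
  exact_mod_cast mul_right_cancel₀ hl.ne' h

theorem voidC_mono {σ σ' : Sd (Fin 3) κ} {L n k k' : ℕ} {C C' : Finset (Fin 3)}
    (h : VoidC pr σ σ' L n k C C') (hk : k ≤ k') : VoidC pr σ σ' L n k' C C' :=
  fun T hT hc hP hi => (h T hT hc hP hi).trans hk

/-- from the alternative of the table to void or rare patterns -/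
theorem conv5 {σ σ' : Sd (Fin 3) κ} {K d ph ph2 c c2 L : ℕ} {W : ℕ → ℝ} {x y : ℝ}
    (hss : σ'.a ≤ σ.a) (hL0 : 0 < L) (n : ℕ)
    {C C' : Finset (Fin 3)}
    (hL : ∀ i < 3, al pr σ.a (fk (K + i)) = Tab.lamR d W x i)
    (hL' : ∀ i < 3, al pr σ'.a (fk (K + i)) = Tab.lamS d W y i)
    (hF : ∀ i < 3, (fk (K + i) ∈ frs σ C ↔ Tab.fr ph c i = true))
    (hF' : ∀ i < 3, (fk (K + i) ∈ frs σ' C' ↔ Tab.fr2 d ph2 c2 i = true))
    (hb : ∀ i < 3, (Tab.bit c i = true ↔ fk (K + i) ∈ C))
    (hb' : ∀ i < 3, (Tab.bit c2 i = true ↔ fk (K + i) ∈ C'))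
    (w cc : ℝ) (hw : Real.log L ≤ ∑ f, al pr σ'.a f + w) (hw0 : 0 ≤ w) (hcc0 : 0 ≤ cc)
    (hcc : 200 + w + cc ≤ (1 / 100) * (∑ f, al pr σ.a f - ∑ f, al pr σ'.a f))
    (hA : Tab.Alt d ph ph2 c c2 W x y) :
    VoidC pr σ σ' L n (10 ^ 8) C C' ∨ RareC pr σ σ' L n (Real.exp (-cc)) C C' := by
  have hFn : ∀ i < 3, Tab.fr ph c i = false → fk (K + i) ∉ frs σ C := by
    intro i hi h h1
    rw [(hF i hi).mp h1] at h
    exact absurd h (by decide)
  have hFn' : ∀ i < 3, Tab.fr2 d ph2 c2 i = false → fk (K + i) ∉ frs σ' C' := by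
    intro i hi h h1
    rw [(hF' i hi).mp h1] at h
    exact absurd h (by decide)
  have hbn : ∀ i < 3, Tab.bit c i = false → fk (K + i) ∉ C := by
    intro i hi h h1
    rw [(hb i hi).mpr h1] at h
    exact absurd h (by decide)
  have hbn' : ∀ i < 3, Tab.bit c2 i = false → fk (K + i) ∉ C' := by
    intro i hi h h1
    rw [(hb' i hi).mpr h1] at h
    exact absurd h (by decide)
  have hsL := sum_fk K (fun f => al pr σ.a f)
  have hsL' := sum_fk K (fun f => al pr σ'.a f)
  have e0 := hL 0 (by norm_num)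
  have e1 := hL 1 (by norm_num)
  have e2 := hL 2 (by norm_num)
  have e0' := hL' 0 (by norm_num)
  have e1' := hL' 1 (by norm_num)
  have e2' := hL' 2 (by norm_num)
  rw [add_zero] at e0 e0'
  rw [e0, e1, e2] at hsL
  rw [e0', e1', e2'] at hsL'
  rcases hA with ⟨i, hi, h1, h2, h3, h4⟩ | ⟨i, hi, h1, h2, h3, h4, h5⟩ | ⟨i, hi, h1, h2, h3, h4, h5⟩ |
    h | ⟨e, hM, hT⟩
  · exact Or.inl (voidC_mono (void1 prOK hss _ (hFn i hi h1) (hFn' i hi h2) ((hb i hi).mp h3)
      (hbn' i hi h4)) (by norm_num))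
  · refine Or.inl (voidC_mono (void2 prOK hss _ (hFn i hi h1) (hFn' i hi h2) (hbn i hi h3)
      ((hb' i hi).mp h4) ?_) (by norm_num))
    rw [hL i hi, hL' i hi]
    exact h5
  · refine Or.inl (voidC_mono (void3 prOK hss _ (hFn i hi h1) (hFn' i hi h2) (hbn i hi h3)
      (hbn' i hi h4) ?_) (by norm_num))
    apply cnt_of_al5
    rw [hL i hi, hL' i hi]
    exact static_al h5 hi W x y
  · refine Or.inl ?_
    have hvo : VoidC pr σ σ' L n 2 C C' := by
      have hLR : (0 : ℝ) < L := by exact_mod_cast hL0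
      apply void4 prOK (Real.log L) (Real.exp_log hLR).ge
      have key : ∀ i < 3, (if fk (K + i) ∈ C ∧ fk (K + i) ∉ frs σ C then
          al pr σ.a (fk (K + i))
          else if fk (K + i) ∈ C' ∧ fk (K + i) ∉ frs σ' C' then al pr σ'.a (fk (K + i))
          else 0) = (Tab.b2z (Tab.bit c i && !(Tab.fr ph c i)) : ℤ) * Tab.lamR d W x i +
          (Tab.b2z (!(Tab.bit c i && !(Tab.fr ph c i)) &&
            (Tab.bit c2 i && !(Tab.fr2 d ph2 c2 i))) : ℤ) * Tab.lamS d W y i := by
        intro i hi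
        rw [hL i hi, hL' i hi]
        have a1 := hb i hi
        have a2 := hb' i hi
        have a3 := hF i hi
        have a4 := hF' i hi
        by_cases q1 : fk (K + i) ∈ C <;> by_cases q2 : fk (K + i) ∈ C' <;>
          by_cases q3 : fk (K + i) ∈ frs σ C <;>
          by_cases q4 : fk (K + i) ∈ frs σ' C' <;>
          · cases r1 : Tab.bit c i <;> cases r2 : Tab.bit c2 i <;>
              cases r3 : Tab.fr ph c i <;> cases r4 : Tab.fr2 d ph2 c2 i <;>
              simp_all [Tab.b2z]
      rw [sum_fk K]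
      have k0 := key 0 (by norm_num)
      have k1 := key 1 (by norm_num)
      have k2 := key 2 (by norm_num)
      rw [add_zero] at k0
      rw [k0, k1, k2]
      unfold Tab.GG at h
      push_cast at h
      rw [hsL, hsL'] at hcc
      rw [hsL'] at hw
      linarith
    exact voidC_mono hvo (by norm_num)
  · refine Or.inr ?_
    have hM' : ∀ f, Tab.okM (Tab.md e (ix K f)) (Tab.fr ph c (ix K f))
        (Tab.fr2 d ph2 c2 (ix K f)) = true := fun f => (hM _ (ix_lt K f)).1
    refine rareC_of_mode3 hss (fun f => mo (Tab.md e (ix K f))) ?_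
      (∑ f, al pr σ'.a f + w) cc ?_ ?_ n
    · intro f
      have h1 := hFn _ (ix_lt K f)
      have h2 := hFn' _ (ix_lt K f)
      rw [fk_ix] at h1 h2
      exact okM_conv h1 h2 (hM' f)
    · have hpos : (0 : ℝ) < L := by exact_mod_cast hL0
      rw [← Real.exp_log hpos]
      exact Real.exp_le_exp.mpr hw
    · -- the sums
      have hS1' : ∑ f ∈ frs σ C, al pr σ.a f =
          ∑ f, if f ∈ frs σ C then al pr σ.a f else 0 := by
        rw [← Finset.sum_filter]
        congr 1
        ext f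
        simp
      have hS2' : ∑ f ∈ frs σ' C', al pr σ'.a f =
          ∑ f, if f ∈ frs σ' C' then al pr σ'.a f else 0 := by
        rw [← Finset.sum_filter]
        congr 1
        ext f
        simp
      have hdec : ∀ i < 3, decide (fk (K + i) ∈ C) = Tab.bit c i := by
        intro i hi
        have := hb i hi
        by_cases q : fk (K + i) ∈ C
        · rw [decide_eq_true q, this.mpr q]
        · rw [decide_eq_false q]
          cases r : Tab.bit c i
          · rfl
          · exact absurd (this.mp r) q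
      have hdec' : ∀ i < 3, decide (fk (K + i) ∈ C') = Tab.bit c2 i := by
        intro i hi
        have := hb' i hi
        by_cases q : fk (K + i) ∈ C'
        · rw [decide_eq_true q, this.mpr q]
        · rw [decide_eq_false q]
          cases r : Tab.bit c2 i
          · rfl
          · exact absurd (this.mp r) q
      have hif : ∀ i < 3, ∀ a : ℝ, (if fk (K + i) ∈ frs σ C then a else 0) =
          if Tab.fr ph c i = true then a else 0 := by
        intro i hi a
        by_cases q : fk (K + i) ∈ frs σ C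
        · rw [if_pos q, if_pos ((hF i hi).mp q)]
        · rw [if_neg q, if_neg (fun h => q ((hF i hi).mpr h))]
      have hif' : ∀ i < 3, ∀ a : ℝ, (if fk (K + i) ∈ frs σ' C' then a else 0) =
          if Tab.fr2 d ph2 c2 i = true then a else 0 := by
        intro i hi a
        by_cases q : fk (K + i) ∈ frs σ' C'
        · rw [if_pos q, if_pos ((hF' i hi).mp q)]
        · rw [if_neg q, if_neg (fun h => q ((hF' i hi).mpr h))]
      have hte : ∀ i < 3, te (decide (fk (K + i) ∈ C)) (decide (fk (K + i) ∈ C'))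
          (al pr σ.a (fk (K + i))) (al pr σ'.a (fk (K + i))) (mo (Tab.md e (ix K (fk (K + i))))) -
          (if fk (K + i) ∈ frs σ C then al pr σ.a (fk (K + i)) else 0) -
          (if fk (K + i) ∈ frs σ' C' then al pr σ'.a (fk (K + i)) else 0) =
          ((Tab.c1 (Tab.md e i) (Tab.bit c i) (Tab.bit c2 i) (Tab.fr ph c i)
            (Tab.fr2 d ph2 c2 i) : ℤ) * Tab.lamR d W x i +
            (Tab.c2' (Tab.md e i) (Tab.bit c i) (Tab.bit c2 i) (Tab.fr ph c i)
            (Tab.fr2 d ph2 c2 i) : ℤ) * Tab.lamS d W y i) / 2 := by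
        intro i hi
        rw [ix_fk K i hi, hL i hi, hL' i hi, hdec i hi, hdec' i hi, hif i hi, hif' i hi]
        exact te_conv (hM i hi).1 (hM i hi).2
      have hme : ∀ i < 3, me (al pr σ.a (fk (K + i))) (al pr σ'.a (fk (K + i)))
          (mo (Tab.md e (ix K (fk (K + i))))) =
          (Tab.m1 (Tab.md e i) : ℤ) * Tab.lamR d W x i +
            (Tab.m2 (Tab.md e i) : ℤ) * Tab.lamS d W y i := by
        intro i hi
        rw [ix_fk K i hi, hL i hi, hL' i hi]
        exact me_conv (hM i hi).1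
      have t0 := hte 0 (by norm_num)
      have t1 := hte 1 (by norm_num)
      have t2 := hte 2 (by norm_num)
      have n0 := hme 0 (by norm_num)
      have n1 := hme 1 (by norm_num)
      have n2 := hme 2 (by norm_num)
      rw [add_zero] at t0 n0
      have g0 := hT false
      have g1 := hT true
      unfold Tab.GG Tab.fa Tab.fb at g0 g1
      simp only [Tab.b2z] at g0 g1
      push_cast at g0 g1
      have hsum := sum_fk K (fun f => te (decide (f ∈ C)) (decide (f ∈ C')) (al pr σ.a f)
        (al pr σ'.a f) (mo (Tab.md e (ix K f))))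
      have hsumm := sum_fk K (fun f => me (al pr σ.a f) (al pr σ'.a f) (mo (Tab.md e (ix K f))))
      have hsf := sum_fk K (fun f => if f ∈ frs σ C then al pr σ.a f else 0)
      have hsf' := sum_fk K (fun f => if f ∈ frs σ' C' then al pr σ'.a f else 0)
      rw [hsL, hsL'] at hcc
      rw [n0, n1, n2] at hsumm
      rw [hsum, hsumm, hsL']
      rcases le_total (Tab.lamS d W y 0 + Tab.lamS d W y 1 + Tab.lamS d W y 2 + w -
        ((Tab.m1 (Tab.md e 0) : ℤ) * Tab.lamR d W x 0 + (Tab.m2 (Tab.md e 0) : ℤ) *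
          Tab.lamS d W y 0 + ((Tab.m1 (Tab.md e 1) : ℤ) * Tab.lamR d W x 1 +
          (Tab.m2 (Tab.md e 1) : ℤ) * Tab.lamS d W y 1) + ((Tab.m1 (Tab.md e 2) : ℤ) *
          Tab.lamR d W x 2 + (Tab.m2 (Tab.md e 2) : ℤ) * Tab.lamS d W y 2))) 0 with hm | hm
      · rw [max_eq_left hm]
        linarith
      · rw [max_eq_right hm]
        linarith

end Pool.Agent.Helper29.T5
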