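import Pool.Agent.Helper25.T4.Asm
import Pool.Agent.Helper29.T5.Conv

/-!
# T5a, block FAR: every pattern is void or rare, for arbitrary positions `l' ≤ l ≤ 5 l'`
-/

namespace Pool.Agent.Helper29.T5

open Finset Pool.Agent.Helper27.T4 Pool.Agent.Helper5.ET Pool.Agent.Helper25.T5
  Pool.Agent.Helper98.T5 Pool.Agent.Helper36.T4
open Pool.Agent.Helper25.T4 (alt_pos al_x al_y2 frs_iff frs_iff2 bit_iff log_Nj_ge)
open Pool.Agent.Helper29.T4

variable {κ : Type*}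

theorem al_eq (l : ℕ) (f : Fin 3) : al pr (av l) f = Pool.Agent.Helper98.T4.al f l := rfl

theorem le_era {k l : ℕ} (h : bb k ≤ l) : k ≤ era l :=
  Nat.le_findGreatest ((le_bb k).trans h) h

theorem frs_same {σ : Sd (Fin 3) κ} {l : ℕ} (h : σ.pre = pre l) (C : Finset (Fin 3)) :
    frs σ C = Pool.Agent.Helper25.T4.frs l C := by
  unfold frs Pool.Agent.Helper25.T4.frs
  rw [h]

/-- THE PATTERN ALTERNATIVE for positions -/
theorem pat5 : ∃ l0 : ℕ, ∀ l l' : ℕ, l0 ≤ l → l ≤ 5 * l' → l' ≤ l → 20000 ≤ l - l' →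
    ∀ {κ : Type*} (σ σ' : Sd (Fin 3) κ), σ.a = av l → σ'.a = av l' → σ.pre = pre l →
    σ'.pre = pre l' → ∀ L : ℕ, 0 < L →
    Real.log L ≤ Real.log (Nj l') + 8 / 100 * ((l : ℝ) - l') →
    ∀ (n : ℕ) (C C' : Finset (Fin 3)), VoidC pr σ σ' L n (10 ^ 8) C C' ∨
      RareC pr σ σ' L n (Real.exp (-(4 / 100 * ((l : ℝ) - l')))) C C' := by
  obtain ⟨k1, hk1⟩ := Pool.Agent.Helper97.T4.win
  refine ⟨5 * bb k1, ?_⟩
  intro l l' hl h5 hll hD κ σ σ' ha ha' hp hp' L hL0 hL n C C'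
  have hb1 : bb k1 ≤ l' := by omega
  have hb0' : bb 0 ≤ l' := (bb_strictMono.monotone (Nat.zero_le k1)).trans hb1
  have hb0 : bb 0 ≤ l := hb0'.trans hll
  have hk' : k1 ≤ era l' := le_era hb1
  obtain ⟨d, hd⟩ := Nat.exists_eq_add_of_le (era_mono hll)
  have hθ' : (199 / 1000 : ℝ) * l ≤ l' := by
    have h1 : (l : ℝ) ≤ 5 * l' := by exact_mod_cast h5
    have h2 : (0 : ℝ) ≤ l := Nat.cast_nonneg _
    linarith
  have hd4 : d ≤ 4 := by
    have := era_dist l l' hb0' hb0 hθ'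
    omega
  have hA := alt_pos (u := Pool.Agent.Helper97.T4.uu (era l') d) hb0' hll hd hd4
    (by
      unfold Pool.Agent.Helper97.T4.uu
      have : 0 ≤ Real.log 1000003 := Real.log_nonneg (by norm_num)
      positivity)
    (fun t ht => hk1 _ hk' d hd4 t ht) C C'
  have hA1 := log_Nj_ge hll
  have hDR : (20000 : ℝ) ≤ (l : ℝ) - l' := by
    have h1 : l' + 20000 ≤ l := by omega
    have h2 : ((l' : ℝ) + 20000) ≤ l := by exact_mod_cast h1
    linarith
  have hs1 : ∑ f, al pr σ.a f = Real.log (Nj l) := by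
    rw [ha, ← Pool.Agent.Helper36.T4.sum_al]
    rfl
  have hs2 : ∑ f, al pr σ'.a f = Real.log (Nj l') := by
    rw [ha', ← Pool.Agent.Helper36.T4.sum_al]
    rfl
  refine conv5 (σ := σ) (σ' := σ') (K := era l) ?_ hL0 n (fun i hi => ?_) ?_
    (fun i hi => ?_) ?_ (fun i hi => bit_iff _ _ i hi)
    (fun i hi => bit_iff _ _ i hi) (8 / 100 * ((l : ℝ) - l')) (4 / 100 * ((l : ℝ) - l'))
    ?_ (by linarith) (by linarith) ?_ hA
  · intro f
    rw [ha, ha']
    exact Pool.Agent.Helper25.T4.av_mono hll f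
  · rw [ha]
    exact al_x hb0 hd hi
  · intro i _
    rw [ha', hd]
    exact al_y2 hb0'
  · rw [frs_same hp]
    exact frs_iff _ _ i hi
  · intro i _
    rw [frs_same hp', hd]
    exact frs_iff2 _ _ _ i
  · rw [hs2]
    exact hL
  · rw [hs1, hs2]
    nlinarith

end Pool.Agent.Helper29.T5
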