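import Pool.Agent.Helper25.T5.Macro
import Pool.Agent.Helper29.T5.PatAlt

/-!
# T5a, block FAR, two-sided count

For all positions `l' ≤ l ≤ 5 l'` with `l - l' ≥ 20000`, with probability `1 - exp (-l)` every
`n < N` has at most `(m + 1) ^ 64` representations `n = z + (n - z)` with `n - z < L` such that `z`
has the residues of an admissible vector at `l` and `n - z` those of an admissible vector at `l'`.
-/

namespace Pool.Agent.Helper29.T5

open Finset Pool.Agent.Helper27.T4 Pool.Agent.Helper5.ET Pool.Agent.Helper25.T5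

theorem pr_pow_le (l : ℕ) : (∏ f, (pr f : ℝ) ^ av l f) ≤ Real.exp (14 * l) := by
  have h1 : ∀ f, (pr f : ℝ) ≤ Real.exp 14 := by
    intro f
    have h2 : (pr f : ℝ) ≤ 1000037 := by
      exact_mod_cast (show pr f ≤ 1000037 by fin_cases f <;> simp [pr])
    have h3 : (1000037 : ℝ) ≤ Real.exp 14 := by
      have h4 : Real.exp 14 = Real.exp 1 ^ 14 := by
        rw [← Real.exp_nat_mul]
        norm_num
      rw [h4]
      have h5 := Real.exp_one_gt_d9
      calc (1000037 : ℝ) ≤ (2.7182818283 : ℝ) ^ 14 := by norm_num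
        _ ≤ Real.exp 1 ^ 14 := pow_le_pow_left₀ (by norm_num) h5.le 14
    linarith
  calc (∏ f, (pr f : ℝ) ^ av l f) ≤ ∏ f, Real.exp 14 ^ av l f :=
        Finset.prod_le_prod (fun f _ => pow_nonneg (Nat.cast_nonneg _) _)
          (fun f _ => pow_le_pow_left₀ (Nat.cast_nonneg _) (h1 f) _)
    _ = Real.exp (14 * l) := by
        rw [Finset.prod_pow_eq_pow_sum, show ∑ f, av l f = l from Pool.Agent.Helper53.TF.cnt_sum' l,
          ← Real.exp_nat_mul]
        congr 1
        ring

open Classical in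
/-- FAR2 -/
theorem far2 : ∃ l0 : ℕ, ∀ l l' : ℕ, l0 ≤ l → l ≤ 5 * l' → l' ≤ l → 20000 ≤ l - l' →
    ∀ {Ω κ : Type*} [Fintype Ω] {ρ : Ω → κ → ℕ} {M : κ → ℕ}
    (σ σ' : Sd (Fin 3) κ) (_ : σ.a = av l) (_ : σ'.a = av l') (_ : σ.pre = pre l)
    (_ : σ'.pre = pre l') (_ : KInj pr σ σ') (_ : Table pr σ σ' ρ M) (L N m : ℕ)
    (_ : (L : ℝ) ≤ Nj l' * Real.exp (8 / 100 * ((l : ℝ) - l')))
    (_ : (N : ℝ) ≤ Real.exp (100 * l)) (_ : 10 ^ 8 * l ≤ m * (l - l')),
    (((univ : Finset Ω).filter (fun r => ∃ n < N,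
      (m + 1) ^ 64 ≤ (repZ pr σ σ' L n (ρ r)).card)).card : ℝ) ≤
      Fintype.card Ω * Real.exp (-(l : ℝ)) := by
  obtain ⟨l0, h0⟩ := pat5
  refine ⟨l0, ?_⟩
  intro l l' hl h5 hll hD Ω κ _ ρ M σ σ' ha ha' hp hp' hK hT L N m hL hN hm
  have hDR : ((l - l' : ℕ) : ℝ) = (l : ℝ) - l' := Nat.cast_sub hll
  rcases Nat.eq_zero_or_pos L with rfl | hLpos
  · have hempty : (univ : Finset Ω).filter (fun r => ∃ n < N,
        (m + 1) ^ 64 ≤ (repZ pr σ σ' 0 n (ρ r)).card) = ∅ := by
      apply Finset.filter_eq_empty_iff.mpr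
      rintro r _ ⟨n, _, hcard⟩
      have h1 : repZ pr σ σ' 0 n (ρ r) = ∅ := by
        unfold repZ
        apply Finset.filter_eq_empty_iff.mpr
        rintro z hz ⟨h2, _⟩
        rw [Finset.mem_range] at hz
        omega
      rw [h1, Finset.card_empty] at hcard
      have : 0 < (m + 1) ^ 64 := by positivity
      omega
    rw [hempty, Finset.card_empty, Nat.cast_zero]
    exact mul_nonneg (Nat.cast_nonneg _) (Real.exp_pos _).le
  · have hlog : Real.log L ≤ Real.log (Nj l') + 8 / 100 * ((l : ℝ) - l') := by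
      have hLR : (0 : ℝ) < L := by exact_mod_cast hLpos
      have hNj : (Nj l' : ℝ) ≠ 0 := by
        intro h
        rw [h, zero_mul] at hL
        linarith
      calc Real.log L ≤ Real.log (Nj l' * Real.exp (8 / 100 * ((l : ℝ) - l'))) :=
            Real.log_le_log hLR hL
        _ = _ := by rw [Real.log_mul hNj (Real.exp_pos _).ne', Real.log_exp]
    have hl1 : (1 : ℝ) ≤ l := by
      exact_mod_cast (show 1 ≤ l by omega)
    have hmR : (10 ^ 8 : ℝ) * l ≤ m * ((l : ℝ) - l') := by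
      rw [← hDR]
      exact_mod_cast hm
    have hkm : 10 ^ 8 ≤ m := by
      by_contra hc
      push Not at hc
      have h1 : m * (l - l') < 10 ^ 8 * l := by
        calc m * (l - l') ≤ m * l := Nat.mul_le_mul_left _ (Nat.sub_le _ _)
          _ < 10 ^ 8 * l := Nat.mul_lt_mul_of_pos_right hc (by omega)
      omega
    have hmain := macro_exp (p := pr) (fun f => (pr_prime f).one_lt.le) hK hT L N (10 ^ 8) m 100 l
      (4 / 100 * ((l : ℝ) - l')) hl1 hN ?_ ?_ ?_ hkm
      (fun n _ C C' => h0 l l' hl h5 hll hD σ σ' ha ha' hp hp' L hLpos hlog n C C')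
    · rw [Fintype.card_fin] at hmain
      exact hmain
    · rw [ha]
      refine (pr_pow_le l).trans (Real.exp_le_exp.mpr ?_)
      linarith
    · rw [ha']
      refine (pr_pow_le l').trans (Real.exp_le_exp.mpr ?_)
      have : (l' : ℝ) ≤ l := by exact_mod_cast hll
      linarith
    · rw [Fintype.card_fin]
      push_cast
      nlinarith

end Pool.Agent.Helper29.T5
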