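import Pool.Agent.Helper29.T4.Pin

/-!
# Push-forward of uniform tables

If `M' k` divides `M (j k)` and `j` is injective, then `r (j k) % M' k` is uniform on the space of
`M'` when `r` is uniform on the space of `M`.
-/

namespace Pool.Agent.Helper29.T5

open Finset Pool.Agent.Helper29.T4

theorem card_mod {m M c : ℕ} (hm : 0 < m) (h : m ∣ M) (hc : c < m) :
    ((range M).filter (fun a => a % m = c)).card = M / m := by
  obtain ⟨q, rfl⟩ := h
  rw [Nat.mul_div_cancel_left _ hm]
  have he : (range (m * q)).filter (fun a => a % m = c) = (range q).image (fun t => m * t + c) := by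
    ext a
    rw [Finset.mem_filter, Finset.mem_range, Finset.mem_image]
    constructor
    · rintro ⟨h1, h2⟩
      refine ⟨a / m, Finset.mem_range.mpr ?_, ?_⟩
      · exact Nat.div_lt_of_lt_mul h1
      · rw [← h2]
        exact Nat.div_add_mod a m
    · rintro ⟨t, ht, rfl⟩
      rw [Finset.mem_range] at ht
      constructor
      · calc m * t + c < m * t + m := by omega
          _ = m * (t + 1) := by ring
          _ ≤ m * q := Nat.mul_le_mul_left _ ht
      · rw [Nat.mul_add_mod, Nat.mod_eq_of_lt hc]
  rw [he, Finset.card_image_of_injective, Finset.card_range]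
  intro a b hab
  have : m * a = m * b := by
    have h2 : m * a + c = m * b + c := hab
    omega
  exact Nat.eq_of_mul_eq_mul_left hm this

variable {ι κ : Type*} [Fintype ι] [Fintype κ] [DecidableEq ι] [DecidableEq κ]

/-- the reduced table -/
def red (M' : κ → ℕ) (j : κ → ι) (r : ι → ℕ) : κ → ℕ := fun k => r (j k) % M' k

open Classical in
theorem card_fiber (M : ι → ℕ) (M' : κ → ℕ) (j : κ → ι) (hj : Function.Injective j)
    (hM' : ∀ k, 0 < M' k) (hd : ∀ k, M' k ∣ M (j k)) {r' : κ → ℕ} (hr' : r' ∈ Om M') :
    ((Om M).filter (fun r => red M' j r = r')).card =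
      ∏ i, (if h : ∃ k, j k = i then M i / M' h.choose else M i) := by
  have he : (Om M).filter (fun r => red M' j r = r') =
      Fintype.piFinset (fun i => (range (M i)).filter (fun a => ∀ k, j k = i → a % M' k = r' k)) := by
    ext r
    rw [Finset.mem_filter, Fintype.mem_piFinset]
    unfold Om
    rw [Fintype.mem_piFinset]
    constructor
    · rintro ⟨h1, h2⟩ i
      rw [Finset.mem_filter]
      refine ⟨h1 i, ?_⟩
      rintro k rfl
      exact congrFun h2 k
    · intro h
      refine ⟨fun i => (Finset.mem_filter.mp (h i)).1, ?_⟩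
      funext k
      exact (Finset.mem_filter.mp (h (j k))).2 k rfl
  rw [he, Fintype.card_piFinset]
  refine Finset.prod_congr rfl (fun i _ => ?_)
  split_ifs with h
  · have hk := h.choose_spec
    set k := h.choose with hkdef
    have hlt : r' k < M' k := by
      unfold Om at hr'
      exact Finset.mem_range.mp (Fintype.mem_piFinset.mp hr' k)
    rw [← card_mod (hM' k) (by rw [← hk]; exact hd k) hlt]
    congr 1
    ext a
    rw [Finset.mem_filter, Finset.mem_filter]
    constructor
    · rintro ⟨h1, h2⟩
      exact ⟨h1, h2 k hk⟩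
    · rintro ⟨h1, h2⟩
      refine ⟨h1, ?_⟩
      intro k' hk'
      have : k' = k := hj (hk'.trans hk.symm)
      rw [this]
      exact h2
  · rw [Finset.filter_true_of_mem, Finset.card_range]
    intro a _ k hk
    exact absurd ⟨k, hk⟩ h

theorem red_mem (M : ι → ℕ) (M' : κ → ℕ) (j : κ → ι) (hM' : ∀ k, 0 < M' k) (r : ι → ℕ) :
    red M' j r ∈ Om M' := by
  unfold Om
  rw [Fintype.mem_piFinset]
  intro k
  exact Finset.mem_range.mpr (Nat.mod_lt _ (hM' k))

open Classical in
/-- push-forward -/
theorem card_push (M : ι → ℕ) (M' : κ → ℕ) (j : κ → ι) (hj : Function.Injective j)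
    (hM' : ∀ k, 0 < M' k) (hd : ∀ k, M' k ∣ M (j k)) (B : (κ → ℕ) → Prop) :
    ((Om M).filter (fun r => B (red M' j r))).card * (Om M').card =
      ((Om M').filter B).card * (Om M).card := by
  set c : ℕ := ∏ i, (if h : ∃ k, j k = i then M i / M' h.choose else M i) with hc
  have h1 : ∀ P : (κ → ℕ) → Prop, ((Om M).filter (fun r => P (red M' j r))).card =
      ((Om M').filter P).card * c := by
    intro P
    rw [Finset.card_eq_sum_card_fiberwise (f := red M' j) (t := (Om M').filter P)]
    · rw [Finset.sum_congr rfl (g := fun _ => c), Finset.sum_const, smul_eq_mul]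
      intro r' hr'
      rw [Finset.mem_filter] at hr'
      rw [hc, ← card_fiber M M' j hj hM' hd hr'.1]
      congr 1
      ext r
      rw [Finset.mem_filter, Finset.mem_filter, Finset.mem_filter]
      constructor
      · rintro ⟨⟨h1, _⟩, h3⟩
        exact ⟨h1, h3⟩
      · rintro ⟨h1, h3⟩
        exact ⟨⟨h1, by rw [h3]; exact hr'.2⟩, h3⟩
    · intro r hr
      rw [Finset.mem_coe, Finset.mem_filter] at hr ⊢
      exact ⟨red_mem M M' j hM' r, hr.2⟩
  have h2 := h1 B
  have h3 := h1 (fun _ => True)
  simp only [Finset.filter_true] at h3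
  rw [h2, h3]
  ring

open Classical in
/-- push-forward of a bound -/
theorem push_le (M : ι → ℕ) (M' : κ → ℕ) (j : κ → ι) (hj : Function.Injective j)
    (hM' : ∀ k, 0 < M' k) (hd : ∀ k, M' k ∣ M (j k)) (B : (κ → ℕ) → Prop) (ε : ℝ)
    (h : (((Om M').filter B).card : ℝ) ≤ ε * (Om M').card) :
    (((Om M).filter (fun r => B (red M' j r))).card : ℝ) ≤ ε * (Om M).card := by
  have h1 := card_push M M' j hj hM' hd B
  have h2 : (0 : ℝ) < (Om M').card := by
    have : (Om M').Nonempty := ⟨fun _ => 0, by
      unfold Om
      rw [Fintype.mem_piFinset]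
      exact fun k => Finset.mem_range.mpr (hM' k)⟩
    exact_mod_cast this.card_pos
  have h3 : (((Om M).filter (fun r => B (red M' j r))).card : ℝ) * (Om M').card =
      ((Om M').filter B).card * (Om M).card := by exact_mod_cast h1
  have h4 : (((Om M').filter B).card : ℝ) * (Om M).card ≤ ε * (Om M').card * (Om M).card :=
    mul_le_mul_of_nonneg_right h (Nat.cast_nonneg _)
  rw [← h3] at h4
  have h5 : (((Om M).filter (fun r => B (red M' j r))).card : ℝ) * (Om M').card ≤
      (ε * (Om M).card) * (Om M').card := by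
    calc _ ≤ ε * (Om M').card * (Om M).card := h4
      _ = _ := by ring
  exact le_of_mul_le_mul_right h5 h2

end Pool.Agent.Helper29.T5
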