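import Pool.Agent.Helper57.T5.Tower

/-!
# T5, J0: windows of all static levels together; exact decoding of a pair of windows
-/

namespace Pool.Agent.Helper29.T5

open Finset Pool.Agent.Helper22.HW Pool.Agent.Helper57.T5

variable {β : Type*} [DecidableEq β]

/-- all static levels and the window -/
def bSet (r : ℕ) (Y : ℕ → Finset β) (cc : ℕ → β → ℕ) (U : Finset ℕ) : Finset ℕ :=
  ((Fintype.piFinset (fun t : Fin r => Y t)) ×ˢ U).image
    (fun q => ∑ t : Fin r, cc t (q.1 t) + q.2)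

omit [DecidableEq β] in
theorem mem_bSet {r : ℕ} {Y : ℕ → Finset β} {cc : ℕ → β → ℕ} {U : Finset ℕ} {b : ℕ} :
    b ∈ bSet r Y cc U ↔ ∃ y : Fin r → β, (∀ t : Fin r, y t ∈ Y t) ∧ ∃ u ∈ U,
      ∑ t : Fin r, cc t (y t) + u = b := by
  unfold bSet
  rw [mem_image]
  constructor
  · rintro ⟨q, hq, rfl⟩
    rw [mem_product, Fintype.mem_piFinset] at hq
    exact ⟨q.1, hq.1, q.2, hq.2, rfl⟩
  · rintro ⟨y, hy, u, hu, rfl⟩
    exact ⟨(y, u), mem_product.mpr ⟨Fintype.mem_piFinset.mpr hy, hu⟩, rfl⟩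

/-- the elements of a scale are sums of a code of the label level and an element of `bSet` -/
theorem scaleSet_eq {α : Type*} [DecidableEq α] (X : Finset α) (c : α → ℕ) (r : ℕ)
    (Y : ℕ → Finset β) (cc : ℕ → β → ℕ) (U : Finset ℕ) :
    scaleSet X c r Y cc U = (X ×ˢ bSet r Y cc U).image (fun q => c q.1 + q.2) := by
  ext a
  unfold scaleSet
  rw [mem_image, mem_image]
  constructor
  · rintro ⟨q, hq, rfl⟩
    rw [mem_product, mem_product] at hq
    refine ⟨(q.1.1, ∑ t : Fin r, cc t (q.1.2 t) + q.2), mem_product.mpr ⟨hq.1.1, ?_⟩, ?_⟩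
    · exact mem_image.mpr ⟨(q.1.2, q.2), mem_product.mpr ⟨hq.1.2, hq.2⟩, rfl⟩
    · simp only
      ring
  · rintro ⟨⟨x, b⟩, hq, rfl⟩
    rw [mem_product] at hq
    obtain ⟨hx, hb⟩ := hq
    obtain ⟨q, hq', rfl⟩ := mem_image.mp hb
    rw [mem_product] at hq'
    refine ⟨((x, q.1), q.2), ?_, ?_⟩
    · rw [mem_product, mem_product]
      exact ⟨⟨hx, hq'.1⟩, hq'.2⟩
    · simp only
      ring

/-- **split of the representations** -/
theorem rep_split {α : Type*} [DecidableEq α] (X X' : Finset α) (c c' : α → ℕ) (B B' : Finset ℕ)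
    (n : ℕ) :
    ((((X ×ˢ B).image (fun q => c q.1 + q.2)) ×ˢ
      ((X' ×ˢ B').image (fun q => c' q.1 + q.2))).filter (fun q => q.1 + q.2 = n)).card ≤
    (((X ×ˢ X') ×ˢ (B ×ˢ B')).filter
        (fun z => c z.1.1 + c' z.1.2 + (z.2.1 + z.2.2) = n)).card := by
  classical
  refine le_trans (card_le_card ?_) (card_image_le
    (f := fun z : (α × α) × (ℕ × ℕ) => (c z.1.1 + z.2.1, c' z.1.2 + z.2.2)))
  intro q hq
  rw [mem_filter, mem_product, mem_image, mem_image] at hq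
  obtain ⟨⟨⟨s, hs, h1⟩, ⟨s', hs', h2⟩⟩, h3⟩ := hq
  rw [mem_product] at hs hs'
  rw [mem_image]
  refine ⟨((s.1, s'.1), (s.2, s'.2)), ?_, ?_⟩
  · rw [mem_filter]
    refine ⟨?_, ?_⟩
    · simp only [mem_product]
      exact ⟨⟨hs.1, hs'.1⟩, ⟨hs.2, hs'.2⟩⟩
    · simp only
      rw [← h3, ← h1, ← h2]
      ring
  · simp only
    rw [h1, h2]

/-- **the leaf**: pairs of elements of `bSet` with a given sum -/
theorem leaf_card (r : ℕ) (Y Y' : ℕ → Finset β) (cc cc' : ℕ → β → ℕ) (Q Cd : ℕ → ℕ)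
    (U U' : Finset ℕ) (R : ℕ)
    (hd : ∀ t < r, ∀ y ∈ Y t, LL Q t ∣ cc t y) (hd' : ∀ t < r, ∀ y ∈ Y' t, LL Q t ∣ cc' t y)
    (hdec : ∀ t < r, Dec (Y t) (Y' t) (cc t) (cc' t) (Q t) (Cd t))
    (hU : ∀ u ∈ U, LL Q r ∣ u) (hU' : ∀ u ∈ U', LL Q r ∣ u)
    (hUU : ∀ T, ((U ×ˢ U').filter (fun q => q.1 + q.2 = T)).card ≤ R) (T : ℕ) :
    ((bSet r Y cc U ×ˢ bSet r Y' cc' U').filter (fun q => q.1 + q.2 = T)).card ≤
      (∏ t ∈ range r, Cd t) * R := by
  classical
  -- pass to the configurations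
  set Z : Finset ((Fin r → β × β) × (ℕ × ℕ)) :=
    ((Fintype.piFinset (fun t : Fin r => Y t ×ˢ Y' t)) ×ˢ (U ×ˢ U')).filter
      (fun q => (∑ t : Fin r, (cc t (q.1 t).1 + cc' t (q.1 t).2)) + (q.2.1 + q.2.2) = T) with hZ
  have h1 : ((bSet r Y cc U ×ˢ bSet r Y' cc' U').filter (fun q => q.1 + q.2 = T)).card ≤
      Z.card := by
    refine le_trans (card_le_card ?_) (card_image_le
      (f := fun q : (Fin r → β × β) × (ℕ × ℕ) =>
        (∑ t : Fin r, cc t (q.1 t).1 + q.2.1, ∑ t : Fin r, cc' t (q.1 t).2 + q.2.2)))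
    intro q hq
    rw [mem_filter, mem_product, mem_bSet, mem_bSet] at hq
    obtain ⟨⟨⟨y, hy, u, hu, e1⟩, ⟨y', hy', u', hu', e2⟩⟩, h3⟩ := hq
    rw [mem_image]
    refine ⟨(fun t => (y t, y' t), (u, u')), ?_, ?_⟩
    · rw [hZ, mem_filter, mem_product, Fintype.mem_piFinset]
      refine ⟨⟨fun t => mem_product.mpr ⟨hy t, hy' t⟩, mem_product.mpr ⟨hu, hu'⟩⟩, ?_⟩
      simp only
      rw [sum_add_distrib, ← h3, ← e1, ← e2]
      ring
    · simp only
      rw [e1, e2]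
  refine h1.trans ?_
  -- decoding
  have h2 : (Z.image (fun q => q.1)).card ≤ ∏ t ∈ range r, Cd t := by
    refine le_trans (card_le_card ?_) (tower_dec (fun t => Y t ×ˢ Y' t)
      (fun t q => cc t q.1 + cc' t q.2) Q Cd r ?_ ?_ T)
    · intro y hy
      obtain ⟨q, hq, rfl⟩ := mem_image.mp hy
      rw [hZ, mem_filter, mem_product] at hq
      rw [mem_filter]
      refine ⟨hq.1.1, ?_⟩
      have h3 : LL Q r ∣ q.2.1 + q.2.2 := by
        have h4 := mem_product.mp hq.1.2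
        exact dvd_add (hU _ h4.1) (hU' _ h4.2)
      have h5 := hq.2
      rw [← h5]
      have h6 : q.2.1 + q.2.2 ≡ 0 [MOD LL Q r] := (Nat.modEq_zero_iff_dvd).2 h3
      have h7 := (Nat.ModEq.refl (n := LL Q r)
        (∑ t : Fin r, (cc t (q.1 t).1 + cc' t (q.1 t).2))).add h6
      simpa using h7.symm
    · intro t ht y hy
      rw [mem_product] at hy
      exact dvd_add (hd t ht _ hy.1) (hd' t ht _ hy.2)
    · intro t ht T'
      exact hdec t ht T'
  have h3 : Z.card ≤ R * (Z.image (fun q => q.1)).card := by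
    refine card_le_mul_card_image_of_maps_to
      (f := fun q : (Fin r → β × β) × (ℕ × ℕ) => q.1)
      (fun q hq => mem_image_of_mem _ hq) R ?_
    intro y _
    refine le_trans (card_le_card_of_injOn
      (fun q : (Fin r → β × β) × (ℕ × ℕ) => q.2) ?_ ?_)
      (hUU (T - ∑ t : Fin r, (cc t (y t).1 + cc' t (y t).2)))
    · intro q hq
      simp only [coe_filter, mem_filter, mem_product, Set.mem_ofPred_eq, hZ] at hq ⊢
      obtain ⟨⟨⟨_, hq2⟩, hq3⟩, rfl⟩ := hq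
      exact ⟨hq2, by omega⟩
    · intro q hq q' hq' h
      simp only [coe_filter, mem_filter, mem_product, Set.mem_ofPred_eq, hZ] at hq hq'
      exact Prod.ext (hq.2.trans hq'.2.symm) h
  calc Z.card ≤ R * (Z.image (fun q => q.1)).card := h3
    _ ≤ R * ∏ t ∈ range r, Cd t := Nat.mul_le_mul_left _ h2
    _ = _ := mul_comm _ _

/-- two windows whose units have a large quotient -/
theorem two_win (a a' : ℕ) (V V' : Finset ℕ) (ha' : 0 < a') (h : a' ∣ a)
    (hV' : ∀ v ∈ V', v < a / a') (T : ℕ) :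
    ((V.image (fun v => a * v) ×ˢ V'.image (fun v => a' * v)).filter
      (fun q => q.1 + q.2 = T)).card ≤ 1 := by
  rw [card_le_one]
  intro q hq s hs
  rw [mem_filter, mem_product, mem_image, mem_image] at hq hs
  obtain ⟨⟨⟨v, hv, h1⟩, ⟨v', hv', h2⟩⟩, h3⟩ := hq
  obtain ⟨⟨⟨u, hu, h4⟩, ⟨u', hu', h5⟩⟩, h6⟩ := hs
  obtain ⟨g, rfl⟩ := h
  rw [Nat.mul_div_cancel_left _ ha'] at hV'
  have e : g * v + v' = g * u + u' := by
    apply Nat.eq_of_mul_eq_mul_left ha'
    have : a' * g * v + a' * v' = a' * g * u + a' * u' := by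
      rw [h1, h2, h4, h5, h3, h6]
    calc a' * (g * v + v') = a' * g * v + a' * v' := by ring
      _ = a' * g * u + a' * u' := this
      _ = a' * (g * u + u') := by ring
  have e1 : v' = u' := by
    have k1 := congrArg (· % g) e
    simp only [Nat.mul_add_mod] at k1
    rwa [Nat.mod_eq_of_lt (hV' v' hv'), Nat.mod_eq_of_lt (hV' u' hu')] at k1
  subst e1
  have h7 : q.2 = s.2 := by rw [← h2, ← h5]
  have h8 : q.1 = s.1 := by omega
  exact Prod.ext h8 h7

end Pool.Agent.Helper29.T5
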