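import Pool.Agent.Helper11.T5.Facts
import Pool.Agent.Helper29.T5.Leaf

/-!
# T5a, J0: split of the representations of a pair of states, leaf
-/

set_option autoImplicit false

namespace Pool.Agent.Helper29.T5

open Finset Pool.Agent.Helper27.T4 Pool.Agent.Helper27.T5
open Pool.Agent.Helper5.ET hiding Key Mk keysOf ext OmK PrLe vlo vhi lev bkey AA Rp
open Pool.Agent.Helper22.HW Pool.Agent.Helper30.T5 Pool.Agent.Helper57.T5
open Pool.Agent.Helper39.T5 Pool.Agent.Helper50.T5 Pool.Agent.Helper11.T5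

/-- triples of the main level and windows (all static levels and `v`) with sum `n` -/
noncomputable def quads (m k l l' : ℕ) (w : Key → ℕ) (n : ℕ) :
    Finset (((Fin 3 → ℕ) × (Fin 3 → ℕ)) × (ℕ × ℕ)) :=
  ((X1 l ×ˢ X1 l') ×ˢ (Zw m k l 0 w ×ˢ Zw m k l' 0 w)).filter
    (fun z => c1 m l w z.1.1 + c1 m l' w z.1.2 + (z.2.1 + z.2.2) = n)

theorem AA_eq_image (m k l : ℕ) (w : Key → ℕ) :
    AA m k l w ⊆ ((X1 l ×ˢ Zw m k l 0 w)).image (fun q => c1 m l w q.1 + q.2) := by
  intro a ha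
  have h := AA_split (Nat.zero_le k) ha
  unfold scaleSet at h
  obtain ⟨q, hq, rfl⟩ := mem_image.mp h
  rw [mem_product, mem_product] at hq
  refine mem_image.mpr ⟨(q.1.1, q.2), mem_product.mpr ⟨hq.1.1, hq.2⟩, ?_⟩
  simp

/-- **split** -/
theorem Rp_le_quads (m k l l' : ℕ) (w : Key → ℕ) (n : ℕ) :
    Rp m k l l' w n ≤ (quads m k l l' w n).card := by
  classical
  unfold Rp quads
  refine le_trans (card_le_card ?_)
    (rep_split (X1 l) (X1 l') (c1 m l w) (c1 m l' w) (Zw m k l 0 w) (Zw m k l' 0 w) n)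
  exact filter_subset_filter _ (product_subset_product (AA_eq_image m k l w)
    (AA_eq_image m k l' w))

/-- decoding constant of the static level `t` -/
noncomputable def Cs (t : ℕ) : ℕ := ∏ i, (2 * (ps t i - 1))

theorem ps_ne_two (t : ℕ) (f : Fin 3) : ps t f ≠ 2 := by
  have h := lt_sp (3 * (t + 2) + f)
  unfold ps
  omega

/-- exact decoding of one static level -/
theorem dec_cs {m l l' t : ℕ} (he : era l' = era l) (w : Key → ℕ) :
    Dec (Ys m (era l) t) (Ys m (era l) t) (cs m l t w) (cs m l' t w) (QQ m (era l) t) (Cs t) := by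
  have h1 := Ss_ok m l t
  have h2 := Ss_ok m l' t
  have hF' : ∀ i, ((Ss m l' t).F).Coprime (ps t i) := h2.cop
  have hcs' : cs m l' t w = lc (ps_prime t) (ps_inj t) (Ss m l' t).F (es m (era l) t)
      (fun i y => ((w ((Ss m l' t).key i y) : ℕ) : ZMod (ps t i ^ es m (era l) t i))) := by
    funext y
    unfold cs Side.cd
    have e1 : (Ss m l' t).e = es m (era l) t := by
      show es m (era l') t = es m (era l) t
      rw [he]
    unfold Side.rho
    rw [e1]
  rw [hcs', QQ_eq_NN]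
  exact Pool.Agent.Helper73.T5.dec_sadm (ps_prime t) (ps_ne_two t) (ps_inj t) (Ss m l t).F (Ss m l' t).F h1.cop h2.cop
    Pool.Agent.Helper22.SL.rk3 (es m (era l) t) (es m (era l) t) (es m (era l) t)
    (fun _ => le_rfl) (fun _ => le_rfl) ((Ss m l t).rho w)
    (fun i y => ((w ((Ss m l' t).key i y) : ℕ) : ZMod (ps t i ^ es m (era l) t i)))
    (fun i x y h => h1.rho_dep w i x y h)
    (fun i x y h => by rw [h2.dep i x y h])
    (Ys m (era l) t) (Ys_adm _ _ _)

/-- the windows in the form of `bSet` -/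
theorem Zw_eq_bSet (m k l s : ℕ) (w : Key → ℕ) :
    Zw m k l s w = bSet (k - s) (fun t => Ys m (era l) (s + t)) (fun t y => cs m l (s + t) w y)
      ((Vw m k l w).image (fun v => Nj l * LA m k (era l) * v)) := by
  ext u
  rw [mem_bSet]
  unfold Zw
  rw [mem_image]
  constructor
  · rintro ⟨q, hq, rfl⟩
    rw [mem_product, Fintype.mem_piFinset] at hq
    exact ⟨q.1, hq.1, _, mem_image_of_mem _ hq.2, rfl⟩
  · rintro ⟨y, hy, u', hu', rfl⟩
    obtain ⟨v, hv, rfl⟩ := mem_image.mp hu'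
    exact ⟨(y, v), mem_product.mpr ⟨Fintype.mem_piFinset.mpr hy, hv⟩, rfl⟩

theorem LL_shift (Q : ℕ → ℕ) (s t : ℕ) : LL Q (s + t) = LL Q s * LL (fun i => Q (s + i)) t := by
  unfold LL
  rw [Finset.prod_range_add]

/-- the leaf constant -/
noncomputable def Cleaf (s k : ℕ) : ℕ := ∏ t ∈ range (k - s), Cs (s + t)

/-- **leaf**: pairs of windows with a given sum -/
theorem leaf_Zw {m k l l' s : ℕ} (hs : s ≤ k) (he : era l' = era l) (w : Key → ℕ)
    (hN : Nj l' ∣ Nj l) (hV : vhi m k l' * Nj l' ≤ Nj l) (T : ℕ) :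
    ((Zw m k l s w ×ˢ Zw m k l' s w).filter (fun q => q.1 + q.2 = T)).card ≤ Cleaf s k := by
  have hLL : ∀ t, LL (fun i => QQ m (era l) (s + i)) t ∣ LL (QQ m (era l)) (s + t) := by
    intro t
    rw [LL_shift]
    exact dvd_mul_left _ _
  have hLA : LA m k (era l) = LL (QQ m (era l)) (s + (k - s)) := by
    rw [LA_eq, Nat.add_sub_cancel' hs]
  rw [Zw_eq_bSet, Zw_eq_bSet, he]
  have h := leaf_card (k - s) (fun t => Ys m (era l) (s + t)) (fun t => Ys m (era l) (s + t))
    (fun t y => cs m l (s + t) w y) (fun t y => cs m l' (s + t) w y)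
    (fun i => QQ m (era l) (s + i)) (fun t => Cs (s + t))
    ((Vw m k l w).image (fun v => Nj l * LA m k (era l) * v))
    ((Vw m k l' w).image (fun v => Nj l' * LA m k (era l) * v)) 1 ?_ ?_ ?_ ?_ ?_ ?_ T
  · rw [mul_one] at h
    exact h
  · intro t _ y _
    exact (hLL t).trans ((dvd_mul_left _ _).trans (dvd_cs m l (s + t) w y))
  · intro t _ y _
    have h2 := dvd_cs m l' (s + t) w y
    rw [he] at h2
    exact (hLL t).trans ((dvd_mul_left _ _).trans h2)
  · intro t _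
    exact dec_cs he w
  · intro u hu
    obtain ⟨v, _, rfl⟩ := mem_image.mp hu
    rw [hLA]
    exact Dvd.dvd.mul_right ((hLL _).trans (dvd_mul_left _ _)) _
  · intro u hu
    obtain ⟨v, _, rfl⟩ := mem_image.mp hu
    rw [hLA]
    exact Dvd.dvd.mul_right ((hLL _).trans (dvd_mul_left _ _)) _
  · intro T'
    have hL0 : 0 < LA m k (era l) := LA_pos _ _ _
    refine two_win _ _ _ _ (Nat.mul_pos (Nj_pos1 _) hL0) (Nat.mul_dvd_mul_right hN _) ?_ T'
    intro v hv
    have h1 := (lt_of_mem_Vw hv).2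
    rw [Nat.mul_div_mul_right _ _ hL0]
    rw [Nat.lt_div_iff_mul_lt' hN]
    calc Nj l' * v < Nj l' * vhi m k l' := Nat.mul_lt_mul_of_pos_left h1 (Nj_pos1 _)
      _ = vhi m k l' * Nj l' := mul_comm _ _
      _ ≤ Nj l := hV

/-! ## size of the last window -/

/-- `vhi` is at most one prime times `vlo` -/
theorem vhi_le {m k l : ℕ} (he : era (l + 1) = era l) :
    vhi m k l ≤ 1000037 * vlo m k (era l) := by
  have hL0 : 0 < LA m k (era l) := LA_pos _ _ _
  have hN0 : 0 < Nj l := Nj_pos1 l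
  have h1 : XA m k (l + 1) ≤ 1000037 * (Nj l * (LA m k (era l) * vlo m k (era l))) := by
    have h2 := XT_same_le (TA m k) (Nat.le_succ l) he.symm
    rw [show l + 1 - l = 1 by omega, pow_one] at h2
    exact h2
  unfold vhi
  calc (XA m k (l + 1) - 2 * (FF m l k * LA m k (era l))) / (Nj l * LA m k (era l))
      ≤ XA m k (l + 1) / (Nj l * LA m k (era l)) := Nat.div_le_div_right (Nat.sub_le _ _)
    _ ≤ (1000037 * (Nj l * (LA m k (era l) * vlo m k (era l)))) / (Nj l * LA m k (era l)) :=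
        Nat.div_le_div_right h1
    _ = 1000037 * vlo m k (era l) := by
        rw [show 1000037 * (Nj l * (LA m k (era l) * vlo m k (era l))) =
          (1000037 * vlo m k (era l)) * (Nj l * LA m k (era l)) by ring]
        exact Nat.mul_div_cancel _ (Nat.mul_pos hN0 hL0)

/-- `vlo` is about `(10 ^ 6) ^ W (k + 1)` -/
theorem vlo_le {m k j : ℕ} (hk : k + 2 ≤ m) (hr : 8 ≤ rt m j) :
    vlo m k j ≤ spq (k + 1) * (10 ^ 6) ^ W m j (k + 1) + 1 := by
  unfold vlo
  apply Nat.add_le_add_right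
  have h1 := le_Lp_mul (m := m) (j := j) (s := k + 1) (by omega) (by omega) hr
  have hL : LA m k j = Lp m j (k + 1) := LL_QQ m j k
  rw [Nat.div_le_iff_le_mul_add_pred (LA_pos m k j)]
  have hW : W m j (k + 1) ≤ W m j 1 := W_anti (by omega)
  have h2 : (10 ^ 6) ^ W m j 1 = (10 ^ 6) ^ (W m j 1 - W m j (k + 1)) *
      (10 ^ 6) ^ W m j (k + 1) := by
    rw [← pow_add]
    congr 1
    omega
  have h3 : (10 ^ 6) ^ W m j 1 ≤ LA m k j * (spq (k + 1) * (10 ^ 6) ^ W m j (k + 1)) := by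
    rw [h2, hL, ← mul_assoc]
    exact Nat.mul_le_mul_right _ h1
  omega

/-- the hypothesis of the leaf, for `D ≥ W (k + 1) + 4 + log spq` -/
theorem vhi_mul_le {m k l l' d0 : ℕ} (hk : k + 2 ≤ m) (hr : 8 ≤ rt m (era l))
    (he : era l' = era l) (he1 : era (l' + 1) = era l') (hd0 : spq (k + 1) + 1 ≤ (10 ^ 6) ^ d0)
    (hD : l' + (W m (era l) (k + 1) + d0 + 2) ≤ l) : vhi m k l' * Nj l' ≤ Nj l := by
  have h1 := vhi_le (m := m) (k := k) he1
  have h2 := vlo_le (m := m) (k := k) (j := era l) hk hr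
  rw [he] at h1
  have hN : Nj l = Nj l' * pr (fam (era l)) ^ (l - l') := Nj_era (by omega) he
  rw [hN, mul_comm]
  apply Nat.mul_le_mul_left
  have h3 : (10 ^ 6) ^ (l - l') ≤ pr (fam (era l)) ^ (l - l') := million_pow_le_pr_pow _ _
  refine le_trans ?_ h3
  have h4 : (10 ^ 6) ^ (W m (era l) (k + 1) + d0 + 2) ≤ (10 ^ 6) ^ (l - l') :=
    Nat.pow_le_pow_right (by norm_num) (by omega)
  refine le_trans ?_ h4
  have h5 : 1 ≤ (10 ^ 6) ^ W m (era l) (k + 1) := Nat.one_le_pow _ _ (by norm_num)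
  calc vhi m k l' ≤ 1000037 * vlo m k (era l) := h1
    _ ≤ 1000037 * (spq (k + 1) * (10 ^ 6) ^ W m (era l) (k + 1) + 1) := Nat.mul_le_mul_left _ h2
    _ ≤ 1000037 * ((spq (k + 1) + 1) * (10 ^ 6) ^ W m (era l) (k + 1)) := by
        apply Nat.mul_le_mul_left
        nlinarith
    _ ≤ 10 ^ 12 * ((10 ^ 6) ^ d0 * (10 ^ 6) ^ W m (era l) (k + 1)) := by
        apply Nat.mul_le_mul (by norm_num)
        exact Nat.mul_le_mul_right _ hd0
    _ = (10 ^ 6) ^ (W m (era l) (k + 1) + d0 + 2) := by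
        rw [pow_add, pow_add]
        norm_num
        ring

end Pool.Agent.Helper29.T5
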