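import Pool.Agent.Helper29.T5.J0B
import Pool.Agent.Helper11.T5.Dep
import Pool.Agent.Helper96.T5.Inst
import Pool.Agent.Helper3.T5.J0

/-!
# T5a, J0 (c): pairs of one era at a distance at least `θ W₁`; conditional form
-/

set_option autoImplicit false

namespace Pool.Agent.Helper29.T5

open Finset Pool.Agent.Helper27.T4 Pool.Agent.Helper27.T5
open Pool.Agent.Helper5.ET hiding Key Mk keysOf ext OmK PrLe vlo vhi lev bkey AA Rp
open Pool.Agent.Helper22.HW Pool.Agent.Helper30.T5 Pool.Agent.Helper57.T5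
open Pool.Agent.Helper39.T5 Pool.Agent.Helper50.T5 Pool.Agent.Helper11.T5
open Pool.Agent.Helper42.T5.Pr Pool.Agent.Helper96.T5 Pool.Agent.Helper3.T5

/-! ## the windows depend on the keys of the levels different from `1` -/

section dep

variable {m k l : ℕ} {w w' : Pool.Agent.Helper11.T5.Key → ℕ}

theorem cs_congr' (h : ∀ q ∈ keysOf m k l, q.2.1 ≠ 1 → w q = w' q) {t : ℕ} (ht : t < k)
    {y : Fin 3 → ℕ} (hy : y ∈ Ys m (era l) t) : cs m l t w y = cs m l t w' y := by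
  unfold cs Side.cd lc
  congr 1
  funext f
  unfold Side.rho
  rw [h _ (key_mem_static ht hy f) (by
    show t + 2 ≠ 1
    omega)]

theorem Vw_congr' (h : ∀ q ∈ keysOf m k l, q.2.1 ≠ 1 → w q = w' q) :
    Vw m k l w = Vw m k l w' := by
  unfold Vw VW
  refine Finset.filter_congr (fun v hv => ?_)
  rw [mem_Ico] at hv
  show v % 2 ^ Pool.Agent.Helper50.T5.lev v = w (bkey l (Pool.Agent.Helper50.T5.lev v)
      (v / 2 ^ Pool.Agent.Helper50.T5.lev v)) ↔ v % 2 ^ Pool.Agent.Helper50.T5.lev v =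
    w' (bkey l (Pool.Agent.Helper50.T5.lev v) (v / 2 ^ Pool.Agent.Helper50.T5.lev v))
  rw [h _ (bkey_mem hv.2) (by
    show 0 ≠ 1
    omega)]

theorem Zw_congr' (h : ∀ q ∈ keysOf m k l, q.2.1 ≠ 1 → w q = w' q) (s : ℕ) :
    Zw m k l s w = Zw m k l s w' := by
  ext u
  rw [mem_Zw, mem_Zw]
  have key : ∀ y : ℕ → Fin 3 → ℕ, (∀ t, s ≤ t → t < k → y t ∈ Ys m (era l) t) →
      ∑ t ∈ Ico s k, cs m l t w (y t) = ∑ t ∈ Ico s k, cs m l t w' (y t) := by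
    intro y hy
    refine Finset.sum_congr rfl (fun t ht => ?_)
    rw [mem_Ico] at ht
    exact cs_congr' h ht.2 (hy t ht.1 ht.2)
  rw [Vw_congr' h]
  constructor
  · rintro ⟨y, hy, v, hv, rfl⟩
    exact ⟨y, hy, v, hv, by rw [key y hy]⟩
  · rintro ⟨y, hy, v, hv, rfl⟩
    exact ⟨y, hy, v, hv, by rw [key y hy]⟩

end dep

theorem PrLe_of_PrG {κ : Type*} [DecidableEq κ] {M : κ → ℕ} {K : Finset κ}
    {B : (κ → ℕ) → Prop} {ε : ℝ} (h : Pool.Agent.Helper22.SL.PrG M K B ε) : PrLe M K B ε := h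

theorem PrG_of_PrLe {κ : Type*} [DecidableEq κ] {M : κ → ℕ} {K : Finset κ}
    {B : (κ → ℕ) → Prop} {ε : ℝ} (h : PrLe M K B ε) : Pool.Agent.Helper22.SL.PrG M K B ε := h

/-- few pairs of windows have a sum in an interval -/
def GoodE (m k l l' E1 n1 : ℕ) (w : Pool.Agent.Helper11.T5.Key → ℕ) : Prop :=
  ∀ n < n1, ((Zw m k l 0 w ×ˢ Zw m k l' 0 w).filter
    (fun q => q.1 + q.2 ≤ n ∧ n < q.1 + q.2 + 2 * FF m l 0)).card ≤ E1

/-- **J0 (c), conditional form** -/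
theorem j0c_core {m k l l' E1 n1 mm : ℕ} {K : Finset Pool.Agent.Helper11.T5.Key} {δ ρ : ℝ}
    (hM : (mp m l' l).Ok (Pool.Agent.Helper11.T5.Mk m)) (hS : (mp m l' l).St)
    (hm : k + 1 < m) (hb : 10 * m ≤ la (era l)) (he : era l' = era l) (hN : Nj l' ∣ Nj l)
    (hK : keysOf m k l ⊆ K) (hK' : keysOf m k l' ⊆ K)
    (hV : vhi m k l' * Nj l' ≤ Nj l)
    (hE : PrLe (Pool.Agent.Helper11.T5.Mk m) K (fun w => ¬ GoodE m k l l' E1 n1 w) δ)
    (hn1 : ∀ w : Pool.Agent.Helper11.T5.Key → ℕ, ∀ n, (quads m k l l' w n).Nonempty → n < n1)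
    (hρ : 0 ≤ ρ)
    (h : E1 * ((mp m l' l).C * (mp m l' l).Lam *
      (((mp m l' l).Ne' : ℝ) / (mp m l' l).Ne + 1 / (mp m l' l).q)) ≤ ρ) :
    PrLe (Pool.Agent.Helper11.T5.Mk m) K (fun w => ∃ n, 2 * ((mp m l' l).C * Cleaf 0 k) * mm <
      Pool.Agent.Helper11.T5.Rp m k l l' w n)
      (δ + n1 * (((mp m l' l).q : ℝ) ^ 2 * ρ ^ (mm + 1))) := by
  classical
  obtain ⟨K0, hK0⟩ : ∃ K0 : Finset Pool.Agent.Helper11.T5.Key,
    K0 = K.filter (fun q => q.2.1 ≠ 1) := ⟨_, rfl⟩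
  have hsub : K0 ⊆ K := by
    rw [hK0]
    exact filter_subset _ _
  have hmem0 : ∀ q ∈ K, q.2.1 ≠ 1 → q ∈ K0 := by
    intro q hq h1
    rw [hK0]
    exact mem_filter.mpr ⟨hq, h1⟩
  have hmem1 : ∀ q ∈ K, q.2.1 = 1 → q ∈ K \ K0 := by
    intro q hq h1
    rw [mem_sdiff, hK0, mem_filter]
    exact ⟨hq, fun h2 => h2.2 h1⟩
  have hnot : ∀ (l : ℕ) (f : Fin 3) (y : Fin 3 → ℕ), hkey l 1 f y ∉ K0 := by
    intro l f y hq
    rw [hK0] at hq
    exact (mem_filter.mp hq).2 rfl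
  clear hK0
  have hpos : ∀ q, 0 < Pool.Agent.Helper11.T5.Mk m q := Mk_pos m
  have hdep : DepOn K0 (fun w => ¬ GoodE m k l l' E1 n1 w) := by
    intro w w' hw
    have h1 : Zw m k l 0 w = Zw m k l 0 w' := Zw_congr' (fun q hq hq1 =>
      hw q (hmem0 q (hK hq) hq1)) 0
    have h2 : Zw m k l' 0 w = Zw m k l' 0 w' := Zw_congr' (fun q hq hq1 =>
      hw q (hmem0 q (hK' hq) hq1)) 0
    show (¬ GoodE m k l l' E1 n1 w) ↔ ¬ GoodE m k l l' E1 n1 w'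
    unfold GoodE
    rw [h1, h2]
  have hE0 : PrLe (Pool.Agent.Helper11.T5.Mk m) K0 (fun w => ¬ GoodE m k l l' E1 n1 w) δ :=
    (PrLe_dep_iff hpos hsub hdep).1 hE
  refine PrLe_cond_bad hsub (by positivity) hE0 (fun r0 hr0 hgood => ?_)
  rw [not_not] at hgood
  obtain ⟨w0, hw0⟩ : ∃ w0, w0 = ext K0 r0 := ⟨_, rfl⟩
  rw [← hw0] at hgood ⊢
  have a1 : ∀ x ∈ (mp m l' l).X, ∀ i, (mp m l' l).key i x ∈ K \ K0 := fun x hx i =>
    hmem1 _ (hK (hkey_mem_main m k hx _ i)) rfl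
  have a2 : ∀ x ∈ (mp m l' l).X', ∀ i, (mp m l' l).key' i x ∈ K \ K0 := fun x hx i =>
    hmem1 _ (hK' (hkey_mem_main m k hx _ i)) rfl
  have a3 : ∀ b ∈ Zw m k l 0 w0, (mp m l' l).N0 ∣ b := by
    intro b hb1
    rw [mp_N0]
    have h1 := dvd_Zw hb hm (Nat.zero_le k) hb1
    rw [LL_zero, mul_one] at h1
    exact hN.trans h1
  have a4 : ∀ b ∈ Zw m k l' 0 w0, (mp m l' l).N0 ∣ b := by
    intro b hb1
    rw [mp_N0]
    have h1 := dvd_Zw (by rw [he]; exact hb) hm (Nat.zero_le k) hb1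
    rw [LL_zero, mul_one] at h1
    exact h1
  have a5 : ∀ T, ((Zw m k l 0 w0 ×ˢ Zw m k l' 0 w0).filter (fun q => q.1 + q.2 = T)).card ≤
      Cleaf 0 k := fun T => leaf_Zw (Nat.zero_le k) he w0 hN hV T
  have a6 : ∀ n < n1, ((Zw m k l 0 w0 ×ˢ Zw m k l' 0 w0).filter
      (fun q => q.1 + q.2 ≤ n ∧ n < q.1 + q.2 + 2 * (mp m l' l).Ne)).card ≤ E1 := by
    intro n hn
    rw [mp_Ne]
    exact hgood n hn
  have hfar := PrLe_of_PrG
    (far_enough hM hS hpos a1 a2 _ _ a3 a4 (Cleaf 0 k) E1 n1 a5 a6 hρ h mm)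
  refine PrLe_mono (fun r1 hr1 hB => ?_) le_rfl hfar
  obtain ⟨n, hn⟩ := hB
  obtain ⟨w, hw⟩ : ∃ w, w = glue K0 w0 (ext (K \ K0) r1) := ⟨_, rfl⟩
  rw [← hw] at hn
  have hZ : Zw m k l 0 w = Zw m k l 0 w0 := Zw_congr' (fun q hq hq1 => by
    rw [hw]
    exact glue_mem _ _ _ (hmem0 q (hK hq) hq1)) 0
  have hZ' : Zw m k l' 0 w = Zw m k l' 0 w0 := Zw_congr' (fun q hq hq1 => by
    rw [hw]
    exact glue_mem _ _ _ (hmem0 q (hK' hq) hq1)) 0
  have hc : ∀ (l : ℕ) (x : Fin 3 → ℕ), c1 m l w x = c1 m l (ext (K \ K0) r1) x := by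
    intro l x
    unfold c1
    congr 1
    funext f
    unfold cmp1
    rw [hw, glue_not_mem _ _ _ (hnot l f _)]
  have hq : 2 * ((mp m l' l).C * Cleaf 0 k) * mm < (quads m k l l' w n).card :=
    lt_of_lt_of_le hn (Rp_le_quads m k l l' w n)
  have hnlt : n < n1 := hn1 w n (card_pos.mp (by omega))
  refine ⟨n, hnlt, lt_of_lt_of_le hq (card_le_card ?_)⟩
  intro z hz
  unfold quads at hz
  rw [mem_filter, mem_product, mem_product, mem_product] at hz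
  obtain ⟨⟨⟨hx, hx'⟩, hbz, hbz'⟩, hsum⟩ := hz
  rw [mem_filter, mem_product, mem_product, mem_product]
  rw [hZ] at hbz
  rw [hZ'] at hbz'
  rw [hc, hc] at hsum
  exact ⟨⟨⟨hx, hx'⟩, hbz, hbz'⟩, hsum⟩

end Pool.Agent.Helper29.T5
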