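import Pool.Agent.Helper29.T5.J0c
import Pool.Agent.Helper45.T5.RegBw
import Pool.Agent.Helper31.T5.Arcs
import Pool.Agent.Helper87.SL.Win
import Pool.Agent.Helper36.T5.MpRho
import Pool.Agent.Helper3.T5.Frame
import Pool.Agent.Helper5.T5.Pair

/-!
# T5a, J0 (c): final statement
-/

set_option autoImplicit false

namespace Pool.Agent.Helper29.T5

open Finset Pool.Agent.Helper27.T4 Pool.Agent.Helper27.T5
open Pool.Agent.Helper5.ET hiding Key Mk keysOf ext OmK PrLe vlo vhi lev bkey AA Rp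
open Pool.Agent.Helper22.HW Pool.Agent.Helper30.T5 Pool.Agent.Helper57.T5
open Pool.Agent.Helper39.T5 Pool.Agent.Helper50.T5 Pool.Agent.Helper11.T5
open Pool.Agent.Helper42.T5.Pr Pool.Agent.Helper96.T5 Pool.Agent.Helper3.T5

/-- the bound of helper31's `arcs_card'` -/
noncomputable def FE (m l l' V : ℕ) : ℝ :=
  ((10 ^ 6) ^ (2 * W m (era l) 2) * (1 + ((2 * ((Nj (ef m 1 l) : ℝ) / Nj l') + V) /
      ((pr (fam (era l)) ^ (l - l') : ℕ) : ℝ) + 2) / Real.sqrt (QQ m (era l) 0))) *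
    ((10 ^ 6) ^ (2 * W m (era l) 2) * (1 + min (2 * ((Nj (ef m 1 l) : ℝ) / Nj l')) V /
      Real.sqrt (QQ m (era l) 0)))

/-- the property for which two regular windows are good -/
theorem goodE_of_reg {m k l l' n1 : ℕ} (hm : k + 2 ≤ m) (hb : 10 * m ≤ la (era l))
    (hll : l' ≤ l) (he : era l' = era l) (hs : era (l' + 1) = era l')
    (hd : ∀ t < k,
      2 * (FF m l' t * LL (QQ m (era l')) t) ≤ FF m l' (t + 1) * LL (QQ m (era l')) (t + 1))
    (hr : 8 ≤ rt m (era l')) {w : Pool.Agent.Helper11.T5.Key → ℕ}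
    (h1 : Pool.Agent.Helper45.T5.RegSet (Bw m k l 0 w) (QQ m (era l) 0)
      ((10 ^ 6) ^ (2 * W m (era l) 2)) (Real.sqrt (QQ m (era l) 0)))
    (h2 : Pool.Agent.Helper45.T5.RegSet (Bw m k l' 0 w) (QQ m (era l) 0)
      ((10 ^ 6) ^ (2 * W m (era l) 2)) (Real.sqrt (QQ m (era l) 0))) :
    GoodE m k l l' ⌊FE m l l' (2000074 * spq 1 * (10 ^ 6) ^ W m (era l) 1)⌋₊ n1 w := by
  intro n _
  apply Nat.le_floor
  have hN' : 0 < Nj l' := Nj_pos1 l'
  have hq : 0 < pr (fam (era l)) ^ (l - l') := pow_pos (pr_prime _).pos _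
  have hNj : Nj l = Nj l' * pr (fam (era l)) ^ (l - l') := Nj_era hll he
  have hle : ef m 1 l ≥ l := by
    have := lt_ef (m := m) (i := 1) (l := l) hb (by omega)
    omega
  have hdv : Nj l' ∣ Nj (ef m 1 l) := NN_dvd pr (Pool.Agent.Helper50.ET.av_mono (by omega))
  have hQ1 : (1 : ℝ) ≤ (QQ m (era l) 0 : ℝ) := by
    exact_mod_cast (Pool.Agent.Helper45.T5.QQ_pos m (era l) 0)
  have hw : 0 < Real.sqrt (QQ m (era l) 0) := Real.sqrt_pos.mpr (by linarith)
  have h3 := Pool.Agent.Helper31.T5.arcs_card' (n := n) (N0 := Nj l')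
    (q := pr (fam (era l)) ^ (l - l')) (Ne := Nj (ef m 1 l))
    (V := 2000074 * spq 1 * (10 ^ 6) ^ W m (era l) 1) hN' hq hdv (Zw m k l 0 w) (Zw m k l' 0 w)
    (Bw m k l 0 w) (Bw m k l' 0 w) ?_ ?_ h1 h2 ?_ (by positivity) (by positivity) hw hw
  · unfold FE
    exact h3
  · intro b hb'
    obtain ⟨u, hu, he2⟩ := Zw_eq_Bw hb (show k + 1 < m by omega) (Nat.zero_le k) hb'
    refine ⟨u, hu, ?_⟩
    rw [he2, LL_zero, mul_one, hNj]
    ring
  · intro b hb'
    obtain ⟨u, hu, he2⟩ := Zw_eq_Bw (by rw [he]; exact hb) (show k + 1 < m by omega)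
      (Nat.zero_le k) hb'
    refine ⟨u, hu, ?_⟩
    rw [he2, LL_zero, mul_one]
  · intro u hu
    have h4 := Pool.Agent.Helper87.SL.Bw_lt hd hm hr hs (Nat.zero_le k) hu
    rw [he] at h4
    exact h4

/-- sums of representations are bounded -/
theorem quads_lt {m k l l' : ℕ}
    (hd : ∀ t < k,
      2 * (FF m l t * LL (QQ m (era l)) t) ≤ FF m l (t + 1) * LL (QQ m (era l)) (t + 1))
    (hd' : ∀ t < k,
      2 * (FF m l' t * LL (QQ m (era l')) t) ≤ FF m l' (t + 1) * LL (QQ m (era l')) (t + 1))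
    (w : Pool.Agent.Helper11.T5.Key → ℕ) (n : ℕ) (h : (quads m k l l' w n).Nonempty) :
    n < FF m l 0 + FF m l' 0 + (XA m k (l + 1) + XA m k (l' + 1)) := by
  obtain ⟨z, hz⟩ := h
  unfold quads at hz
  rw [mem_filter, mem_product, mem_product, mem_product] at hz
  obtain ⟨⟨_, hu, hu'⟩, rfl⟩ := hz
  have h1 := Pool.Agent.Helper11.T5.c1_lt m l w z.1.1
  have h2 := Pool.Agent.Helper11.T5.c1_lt m l' w z.1.2
  have h3 := Pool.Agent.Helper87.SL.Zw_lt hd (Nat.zero_le k) hu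
  have h4 := Pool.Agent.Helper87.SL.Zw_lt hd' (Nat.zero_le k) hu'
  omega

/-! ## sizes -/

theorem log_pr_le_14 : (1000037 : ℝ) ≤ Real.exp 14 := by
  have h4 : Real.exp 14 = Real.exp 1 ^ 14 := by
    rw [← Real.exp_nat_mul]
    norm_num
  rw [h4]
  have h5 := Real.exp_one_gt_d9
  calc (1000037 : ℝ) ≤ (2.7182818283 : ℝ) ^ 14 := by norm_num
    _ ≤ Real.exp 1 ^ 14 := pow_le_pow_left₀ (by norm_num) h5.le 14

theorem Nj_exp (y : ℕ) : (Nj y : ℝ) ≤ Real.exp (14 * y) := by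
  have h1 : (Nj y : ℝ) ≤ (1000037 : ℝ) ^ y := by
    exact_mod_cast Pool.Agent.Helper30.ET.Nj_le_pow y
  refine h1.trans ((pow_le_pow_left₀ (by norm_num) log_pr_le_14 y).trans (le_of_eq ?_))
  rw [← Real.exp_nat_mul]
  congr 1
  ring

theorem XA_exp {m k l : ℕ} (h : W m (era l) 1 ≤ l) (hl : 1 ≤ l) :
    (XA m k l : ℝ) ≤ Real.exp (30 * l) := by
  have h1 : (XA m k l : ℝ) = (Nj l : ℝ) * (TA m k (era l) : ℝ) := by
    unfold XA XT
    push_cast
    rfl
  have h2 : (TA m k (era l) : ℝ) ≤ 2 * (1000037 : ℝ) ^ W m (era l) 1 := by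
    have h3 := Pool.Agent.Helper87.SL.TA_le m k (era l)
    have h4 : (TA m k (era l) : ℝ) ≤ 2 * ((10 : ℝ) ^ 6) ^ W m (era l) 1 := by exact_mod_cast h3
    refine h4.trans ?_
    gcongr
    norm_num
  have h5 : (1000037 : ℝ) ^ W m (era l) 1 ≤ Real.exp (14 * l) := by
    refine (pow_le_pow_left₀ (by norm_num) log_pr_le_14 _).trans ?_
    rw [← Real.exp_nat_mul]
    apply Real.exp_le_exp.mpr
    have : (W m (era l) 1 : ℝ) ≤ l := by exact_mod_cast h
    linarith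
  have h6 : (2 : ℝ) ≤ Real.exp (2 * l) := by
    have h7 : (1 : ℝ) ≤ l := by exact_mod_cast hl
    have h8 := Real.add_one_le_exp (2 * (l : ℝ))
    linarith
  rw [h1]
  calc (Nj l : ℝ) * (TA m k (era l) : ℝ) ≤ Real.exp (14 * l) * (Real.exp (2 * l) *
      Real.exp (14 * l)) := by
        refine mul_le_mul (Nj_exp l) ?_ (Nat.cast_nonneg _) (Real.exp_pos _).le
        exact h2.trans (mul_le_mul h6 h5 (by positivity) (Real.exp_pos _).le)
    _ = Real.exp (30 * l) := by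
        rw [← Real.exp_add, ← Real.exp_add]
        congr 1
        ring

end Pool.Agent.Helper29.T5
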