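import Pool.Agent.Helper29.T5.J0cEnd
import Pool.Agent.Helper18.T5.J0c

/-!
# T5a, J0 (c): pairs of one era without common front, `θ W₁ ≤ D < 200 W₁`
-/

set_option autoImplicit false

namespace Pool.Agent.Helper29.T5

open Finset Pool.Agent.Helper27.T4 Pool.Agent.Helper27.T5
open Pool.Agent.Helper5.ET hiding Key Mk keysOf ext OmK PrLe vlo vhi lev bkey AA Rp
open Pool.Agent.Helper22.HW Pool.Agent.Helper30.T5 Pool.Agent.Helper57.T5
open Pool.Agent.Helper39.T5 Pool.Agent.Helper50.T5 Pool.Agent.Helper11.T5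
open Pool.Agent.Helper42.T5.Pr Pool.Agent.Helper96.T5 Pool.Agent.Helper3.T5

/-- the failure probability of the main part -/
theorem fail_num {l W1 mm : ℕ} {n1 q ρ : ℝ} (hW : 0 < W1) (hmm : 8000 * l / W1 = mm)
    (hn1 : n1 ≤ Real.exp (100 * l)) (hn0 : 0 ≤ n1) (hq : q ≤ Real.exp (28 * l)) (hq0 : 0 ≤ q)
    (hρ : ρ = Real.exp (-((W1 : ℝ) / 50))) :
    n1 * (q ^ 2 * ρ ^ (mm + 1)) ≤ Real.exp (-(l : ℝ)) := by
  have h1 : 8000 * l < (mm + 1) * W1 := by
    rw [← hmm]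
    have := Nat.lt_div_mul_add (a := 8000 * l) hW
    linarith [this, show (8000 * l / W1 + 1) * W1 = 8000 * l / W1 * W1 + W1 by ring]
  have h2 : (8000 : ℝ) * l ≤ (mm + 1 : ℕ) * (W1 : ℝ) := by exact_mod_cast h1.le
  have h3 : q ^ 2 ≤ Real.exp (56 * l) := by
    calc q ^ 2 ≤ Real.exp (28 * l) ^ 2 := pow_le_pow_left₀ hq0 hq 2
      _ = Real.exp (56 * l) := by
        rw [← Real.exp_nat_mul]
        congr 1
        push_cast
        ring
  have h4 : ρ ^ (mm + 1) = Real.exp (-(((mm + 1 : ℕ) : ℝ) * (W1 : ℝ) / 50)) := by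
    rw [hρ, ← Real.exp_nat_mul]
    congr 1
    ring
  rw [h4]
  calc n1 * (q ^ 2 * Real.exp (-(((mm + 1 : ℕ) : ℝ) * (W1 : ℝ) / 50)))
      ≤ Real.exp (100 * l) * (Real.exp (56 * l) *
        Real.exp (-(((mm + 1 : ℕ) : ℝ) * (W1 : ℝ) / 50))) := by
        refine mul_le_mul hn1 ?_ (by positivity) (Real.exp_pos _).le
        exact mul_le_mul_of_nonneg_right h3 (Real.exp_pos _).le
    _ = Real.exp (100 * l + (56 * l - ((mm + 1 : ℕ) : ℝ) * (W1 : ℝ) / 50)) := by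
        rw [← Real.exp_add, ← Real.exp_add]
        congr 2
    _ ≤ Real.exp (-(l : ℝ)) := by
        apply Real.exp_le_exp.mpr
        have : (0 : ℝ) ≤ l := Nat.cast_nonneg _
        linarith

theorem sqrt_le_W {m l : ℕ} (hm : 2 ≤ m) (hl : bb 0 ≤ l) :
    (l : ℝ) ^ (1 / 2 : ℝ) ≤ 30 * (W m (era l) 1 : ℝ) := by
  have h0 : 1 ≤ l := le_trans (by norm_num [bb]) hl
  have h1 := l_le_mul_W (m := m) (i := 1) (by omega) hl rfl (by omega)
  have hl1 : (1 : ℝ) ≤ l := by exact_mod_cast h0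
  have hl0 : (0 : ℝ) < l := by linarith
  have h2 : (l : ℝ) ^ (((1 : ℕ) : ℝ) / m) ≤ (l : ℝ) ^ (1 / 2 : ℝ) := by
    apply Real.rpow_le_rpow_of_exponent_le hl1
    have : (2 : ℝ) ≤ m := by exact_mod_cast hm
    rw [Nat.cast_one]
    exact one_div_le_one_div_of_le (by norm_num) this
  have h3 : (l : ℝ) = (l : ℝ) ^ (1 / 2 : ℝ) * (l : ℝ) ^ (1 / 2 : ℝ) := by
    rw [← Real.rpow_add hl0]
    norm_num
  have h4 : (0 : ℝ) < (l : ℝ) ^ (1 / 2 : ℝ) := Real.rpow_pos_of_pos hl0 _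
  have hW : (0 : ℝ) ≤ W m (era l) 1 := Nat.cast_nonneg _
  have h5 : (l : ℝ) ^ (1 / 2 : ℝ) * (l : ℝ) ^ (1 / 2 : ℝ) ≤
      (l : ℝ) ^ (1 / 2 : ℝ) * (4 * (W m (era l) 1 : ℝ)) := by
    rw [← h3]
    calc (l : ℝ) ≤ 4 * (l : ℝ) ^ (((1 : ℕ) : ℝ) / m) * (W m (era l) 1 : ℝ) := h1
      _ ≤ 4 * (l : ℝ) ^ (1 / 2 : ℝ) * (W m (era l) 1 : ℝ) := by gcongr
      _ = _ := by ring
  have h6 := le_of_mul_le_mul_left h5 h4
  linarith

theorem le_pow_self (n : ℕ) : n ≤ (10 ^ 6) ^ n :=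
  (Nat.lt_pow_self (by norm_num : 1 < 10 ^ 6)).le

/-- **J0 (c)** -/
theorem j0c_pair (m k : ℕ) (hk : k + 2 ≤ m) (hk1 : 1 ≤ k) :
    ∃ (C1 : ℝ) (j0 : ℕ), 0 ≤ C1 ∧ ∀ l l', j0 ≤ era l → l' ≤ l → used m l → used m l' →
      ZeroC m k l l' → ∀ K : Finset Pool.Agent.Helper11.T5.Key, keysOf m k l ⊆ K →
      keysOf m k l' ⊆ K →
      PrLe (Pool.Agent.Helper11.T5.Mk m) K
        (fun w => ∃ n, C1 * (l : ℝ) ^ ((1 : ℝ) / (m : ℝ)) <
          (Pool.Agent.Helper11.T5.Rp m k l l' w n : ℝ))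
        (3 * Real.exp (-((l : ℝ) ^ (1 / 2 : ℝ)))) := by
  obtain ⟨jr, hjr⟩ := Pool.Agent.Helper45.T5.reg_Bw m k hk
  obtain ⟨jd, hjd⟩ := Pool.Agent.Helper27.T5.exists_double m k hk
  obtain ⟨jf, hjf⟩ := Pool.Agent.Helper18.T5.far_rho m k hk1 hk
  obtain ⟨jm, hjm⟩ := exists_mul_W_le (m := m) (by omega) 12000
  obtain ⟨jw, hjw⟩ := Pool.Agent.Helper30.T5.exists_le_rt (m := m) (by omega)
    (10000 * (spq (k + 1) + spq 1 + 10))
  obtain ⟨c3, hc3⟩ : ∃ c3 : ℕ, ∀ m l' l, (mp m l' l).C ≤ c3 := ⟨_, fun m l' l => mp_C⟩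
  refine ⟨((2 * (c3 * Cleaf 0 k) : ℕ) : ℝ) * 32000,
    max (max jr jd) (max jf (max jm (max jw 3))), by positivity, ?_⟩
  intro l l' hj hll hu hu' hz K hK hK'
  obtain ⟨he, hfc, hD7, hD200⟩ := hz
  have hjr' := hjr l (by omega) hu 0 (by omega) K ((Pool.Agent.Helper39.T5.keysD_sub _ _ _ _).trans hK)
  have hjr'' := hjr l' (by omega) hu' 0 (by omega) K
    ((Pool.Agent.Helper39.T5.keysD_sub _ _ _ _).trans hK')
  rw [he] at hjr''
  obtain ⟨hb, hd⟩ := hjd l hu (by omega)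
  obtain ⟨hb', hd'⟩ := hjd l' hu' (by omega)
  have hm1 : 1 < m := by omega
  have hW1 := Pool.Agent.Helper30.T5.W_pos m (era l) 1
  have hrt := hjw (era l) (by omega)
  have hr8 : 8 ≤ rt m (era l) := by omega
  have hWrt : rt m (era l) ≤ W m (era l) 1 := Pool.Agent.Helper30.T5.rt_le_W (by omega)
  have hW2 : rt m (era l) ≤ W m (era l) 2 := Pool.Agent.Helper30.T5.rt_le_W (by omega)
  have hWa := hjm (era l) (by omega) 0 (by omega)
  have hWb := hjm (era l) (by omega) 1 (by omega)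
  rw [show (0 : ℕ) + 1 = 1 from rfl] at hWa
  rw [show (1 : ℕ) + 1 = 2 from rfl] at hWb
  have hl0 : bb 0 ≤ l := used_bb_zero hu
  have hl0' : bb 0 ≤ l' := used_bb_zero hu'
  have hbl := used_bb hu
  have hW0 := Pool.Agent.Helper30.T5.W_zero_le m (era l)
  have hlt : l' < l := by omega
  have hs : 60 * (l - l') ≤ l := by omega
  have h3 : bb 3 ≤ l' := by
    have h4 := used_bb hu'
    have h5 : bb 3 ≤ bb (era l') := bb_strictMono.monotone (by omega)
    omega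
  have hM := mp_ok hm1 hb hu hu' he hlt hs
  have hS := mp_st (m := m) he hlt hs h3
  have hN : Nj l' ∣ Nj l := NN_dvd pr (Pool.Agent.Helper50.ET.av_mono hll)
  have hs' : era (l' + 1) = era l' := (era_add_two hu' hb' hm1).1
  have hWk : W m (era l) (k + 1) ≤ W m (era l) 2 := W_anti (by omega)
  have hV : Pool.Agent.Helper11.T5.vhi m k l' * Nj l' ≤ Nj l := by
    apply vhi_mul_le (d0 := spq (k + 1) + 1) hk hr8 he hs' (le_pow_self _)
    omega
  -- the numbers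
  set W1 := W m (era l) 1 with hW1def
  set V := 2000074 * spq 1 * (10 ^ 6) ^ W1 with hVdef
  have hVle : V ≤ (10 ^ 6) ^ (W1 + W m (era l) 2) := by
    rw [hVdef, pow_add, mul_comm]
    apply Nat.mul_le_mul_left
    have h4 : 2000074 * spq 1 ≤ (10 ^ 6) ^ 2 * (10 ^ 6) ^ spq 1 :=
      Nat.mul_le_mul (by norm_num) (le_pow_self _)
    refine h4.trans ?_
    rw [← pow_add]
    apply Nat.pow_le_pow_right (by norm_num)
    omega
  have hrho := hjf l' l (by omega) hu hu' hll he (by omega) hD7 V hVle ⌊FE m l l' V⌋₊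
    (Nat.floor_le (by unfold FE; positivity))
  have hgood : PrLe (Pool.Agent.Helper11.T5.Mk m) K
      (fun w => ¬ GoodE m k l l' ⌊FE m l l' V⌋₊
        (FF m l 0 + FF m l' 0 + (XA m k (l + 1) + XA m k (l' + 1))) w)
      (Real.exp (-(30 * (W1 : ℝ))) + Real.exp (-(30 * (W1 : ℝ)))) := by
    refine PrLe_mono (fun r _ hn => ?_) le_rfl (PrLe_or (PrLe_of_PrG hjr') (PrLe_of_PrG hjr''))
    by_contra hc
    push Not at hc
    exact hn (goodE_of_reg hk hb hll he hs' hd' (by rw [he]; exact hr8) hc.1 hc.2)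
  have hcore := j0c_core (mm := 8000 * l / W1) hM hS (by omega) hb he hN hK hK' hV hgood
    (fun w n h => quads_lt hd hd' w n h) (Real.exp_pos _).le hrho
  refine PrLe_mono (fun r _ hn => ?_) ?_ hcore
  · obtain ⟨n, hn⟩ := hn
    refine ⟨n, ?_⟩
    have hC := hc3 m l' l
    have hmm : ((8000 * l / W1 : ℕ) : ℝ) ≤ 32000 * (l : ℝ) ^ ((1 : ℝ) / (m : ℝ)) := by
      have h4 := l_le_mul_W (m := m) (i := 1) (by omega) hl0 rfl (by omega)
      rw [Nat.cast_one] at h4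
      have hWp : (0 : ℝ) < (W1 : ℝ) := by exact_mod_cast hW1
      refine (Nat.cast_div_le).trans ?_
      rw [div_le_iff₀ hWp]
      push_cast
      rw [← hW1def] at h4
      nlinarith
    have h5 : ((2 * ((mp m l' l).C * Cleaf 0 k) * (8000 * l / W1) : ℕ) : ℝ) ≤
        ((2 * (c3 * Cleaf 0 k) : ℕ) : ℝ) * 32000 * (l : ℝ) ^ ((1 : ℝ) / (m : ℝ)) := by
      rw [Nat.cast_mul, mul_assoc]
      refine mul_le_mul ?_ hmm (Nat.cast_nonneg _) (Nat.cast_nonneg _)
      exact Nat.cast_le.mpr (Nat.mul_le_mul_left _ (Nat.mul_le_mul_right _ hC))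
    have h6 := lt_of_le_of_lt h5 hn
    exact Nat.cast_lt.mp h6
  · have hq : ((mp m l' l).q : ℝ) ≤ Real.exp (28 * l) := by
      have h4 : (mp m l' l).q ≤ Nj (ef m 1 l) := by
        have h5 : (mp m l' l).q ∣ Nj (ef m 1 l) := pow_dvd_NN pr (av (ef m 1 l)) _
        exact Nat.le_of_dvd (Nj_pos1 _) h5
      have h6 : ef m 1 l ≤ 2 * l := by
        have h7 := ef_sub_le (m := m) (i := 1) (l := l) hb (by omega)
        omega
      calc ((mp m l' l).q : ℝ) ≤ (Nj (ef m 1 l) : ℝ) := by exact_mod_cast h4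
        _ ≤ Real.exp (14 * (ef m 1 l : ℕ)) := Nj_exp _
        _ ≤ Real.exp (28 * l) := by
            apply Real.exp_le_exp.mpr
            have : ((ef m 1 l : ℕ) : ℝ) ≤ 2 * l := by exact_mod_cast h6
            linarith
    have hlr : (1 : ℝ) ≤ l := by
      exact_mod_cast (show 1 ≤ l by omega)
    have hn1 : ((FF m l 0 + FF m l' 0 + (XA m k (l + 1) + XA m k (l' + 1)) : ℕ) : ℝ) ≤
        Real.exp (100 * l) := by
      have e1 : ef m 1 l ≤ 2 * l := by
        have h7 := ef_sub_le (m := m) (i := 1) (l := l) hb (by omega)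
        omega
      have e2 : ef m 1 l' ≤ 2 * l := by
        have h7 := ef_sub_le (m := m) (i := 1) (l := l') hb' (by omega)
        rw [he] at h7
        omega
      have f1 : (FF m l 0 : ℝ) ≤ Real.exp (28 * l) := by
        refine (Nj_exp (ef m 1 l)).trans (Real.exp_le_exp.mpr ?_)
        have : ((ef m 1 l : ℕ) : ℝ) ≤ 2 * l := by exact_mod_cast e1
        linarith
      have f2 : (FF m l' 0 : ℝ) ≤ Real.exp (28 * l) := by
        refine (Nj_exp (ef m 1 l')).trans (Real.exp_le_exp.mpr ?_)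
        have : ((ef m 1 l' : ℕ) : ℝ) ≤ 2 * l := by exact_mod_cast e2
        linarith
      have g1 : (XA m k (l + 1) : ℝ) ≤ Real.exp (60 * l) := by
        have h7 := (era_add_two hu hb hm1).1
        refine (XA_exp (by rw [h7]; omega) (by omega)).trans (Real.exp_le_exp.mpr ?_)
        push_cast
        linarith
      have g2 : (XA m k (l' + 1) : ℝ) ≤ Real.exp (60 * l) := by
        refine (XA_exp (by rw [hs', he]; omega) (by omega)).trans (Real.exp_le_exp.mpr ?_)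
        push_cast
        have : (l' : ℝ) ≤ l := by exact_mod_cast hll
        linarith
      have f3 : Real.exp (28 * l) ≤ Real.exp (60 * l) := Real.exp_le_exp.mpr (by linarith)
      have f4 : (4 : ℝ) ≤ Real.exp (40 * l) := by
        have := Real.add_one_le_exp (40 * (l : ℝ))
        linarith
      push_cast
      calc (FF m l 0 : ℝ) + FF m l' 0 + (XA m k (l + 1) + XA m k (l' + 1))
          ≤ 4 * Real.exp (60 * l) := by linarith
        _ ≤ Real.exp (40 * l) * Real.exp (60 * l) :=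
            mul_le_mul_of_nonneg_right f4 (Real.exp_pos _).le
        _ = Real.exp (100 * l) := by
            rw [← Real.exp_add]
            congr 1
            ring
    have h8 := fail_num (l := l) (W1 := W1) (mm := 8000 * l / W1) hW1 rfl hn1
      (Nat.cast_nonneg _) hq (Nat.cast_nonneg _) rfl
    have h9 : Real.exp (-(30 * (W1 : ℝ))) ≤ Real.exp (-((l : ℝ) ^ (1 / 2 : ℝ))) :=
      Real.exp_le_exp.mpr (neg_le_neg (sqrt_le_W (by omega) hl0))
    have h10 : Real.exp (-(l : ℝ)) ≤ Real.exp (-((l : ℝ) ^ (1 / 2 : ℝ))) := by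
      apply Real.exp_le_exp.mpr
      apply neg_le_neg
      calc (l : ℝ) ^ (1 / 2 : ℝ) ≤ (l : ℝ) ^ (1 : ℝ) :=
            Real.rpow_le_rpow_of_exponent_le hlr (by norm_num)
        _ = l := Real.rpow_one _
    linarith

/-- **J0 (c)**, in the form of helper5's frame -/
theorem j0c (k : ℕ) (hk1 : 1 ≤ k) :
    Pool.Agent.Helper5.T5.PairOK k (fun l' l => ZeroC (k + 2) k l l') 1 := by
  obtain ⟨C1, j0, hC1, h⟩ := j0c_pair (k + 2) k le_rfl hk1
  refine ⟨bb j0, C1, 1 / 2, 3, hC1, by norm_num, by norm_num, ?_⟩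
  intro l l' hl' hll hu hu' hz K hK hK'
  have hj : j0 ≤ era l := by
    have h1 : j0 ≤ era l' := Nat.le_findGreatest
      ((Pool.Agent.Helper27.T4.le_bb j0).trans hl') hl'
    exact h1.trans (era_mono hll)
  have h2 := h l l' hj hll hu hu' hz K hK hK'
  rw [Nat.cast_one]
  exact h2

/-- the same in the form of helper3's frame -/
theorem j0c_on (m k : ℕ) (hk1 : 1 ≤ k) (hk : k + 2 ≤ m) {ε : ℝ} (hε : 1 / (m : ℝ) ≤ ε) :
    PairOn m k ε (ZeroC m k) := by
  obtain ⟨C1, j0, hC1, h⟩ := j0c_pair m k hk hk1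
  -- `3 exp (- l ^ (1/2)) ≤ exp (- l ^ (1/4))` for large `l`
  refine ⟨C1, 1 / 4, max (bb j0) 16, hC1, by norm_num, ?_⟩
  intro l l' hl' hll hu hu' hz K hK hK'
  have hj : j0 ≤ era l := by
    have h1 : j0 ≤ era l' := Nat.le_findGreatest
      ((Pool.Agent.Helper27.T4.le_bb j0).trans ((le_max_left _ _).trans hl'))
      ((le_max_left _ _).trans hl')
    exact h1.trans (era_mono hll)
  have h16 : 16 ≤ l := ((le_max_right _ _).trans hl').trans hll
  have hl1 : (1 : ℝ) ≤ l := by exact_mod_cast (show 1 ≤ l by omega)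
  refine PrLe_mono (fun r _ hn => ?_) ?_ (h l l' hj hll hu hu' hz K hK hK')
  · obtain ⟨n, hn⟩ := hn
    refine ⟨n, lt_of_le_of_lt (mul_le_mul_of_nonneg_left ?_ hC1) hn⟩
    exact Real.rpow_le_rpow_of_exponent_le hl1 hε
  · have h1 : (2 : ℝ) ≤ (l : ℝ) ^ (1 / 4 : ℝ) := by
      have h2 : (16 : ℝ) ^ (1 / 4 : ℝ) ≤ (l : ℝ) ^ (1 / 4 : ℝ) :=
        Real.rpow_le_rpow (by norm_num) (by exact_mod_cast h16) (by norm_num)
      have h3 : (16 : ℝ) ^ (1 / 4 : ℝ) = 2 := by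
        rw [show (16 : ℝ) = (2 : ℝ) ^ (4 : ℝ) by norm_num, ← Real.rpow_mul (by norm_num)]
        norm_num
      linarith
    have h4 : (l : ℝ) ^ (1 / 2 : ℝ) = (l : ℝ) ^ (1 / 4 : ℝ) * (l : ℝ) ^ (1 / 4 : ℝ) := by
      rw [← Real.rpow_add (by linarith)]
      norm_num
    have h5 : (3 : ℝ) ≤ Real.exp 2 := by
      have := Real.add_one_le_exp (2 : ℝ)
      linarith
    calc 3 * Real.exp (-((l : ℝ) ^ (1 / 2 : ℝ)))
        ≤ Real.exp 2 * Real.exp (-((l : ℝ) ^ (1 / 2 : ℝ))) :=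
          mul_le_mul_of_nonneg_right h5 (Real.exp_pos _).le
      _ = Real.exp (2 - (l : ℝ) ^ (1 / 2 : ℝ)) := by
          rw [← Real.exp_add]
          congr 1
      _ ≤ Real.exp (-((l : ℝ) ^ (1 / 4 : ℝ))) := by
          apply Real.exp_le_exp.mpr
          rw [h4]
          nlinarith

end Pool.Agent.Helper29.T5
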