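import Pool.Agent.Helper29.T5.J0cMain
import Pool.Agent.Helper3.T5.ZeroOf

/-!
# T5a: the block of the pairs without common front
-/

set_option autoImplicit false

namespace Pool.Agent.Helper29.T5

theorem zeroC : Pool.Agent.Helper3.T5.ZeroCStmt := by
  refine ⟨1, 1, fun k hk => ?_⟩
  exact j0c k hk

/-- **the block J0 of T5a** -/
theorem zeroStmt : Pool.Agent.Helper5.T5.ZeroStmt := Pool.Agent.Helper3.T5.zero_of zeroC

end Pool.Agent.Helper29.T5
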